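import Mathlib
import Pool.Agent.Lib.MP_af06f6_co.D.Stm

/-!
# MP_af06f6_co, discharging part: CNT (counting credits)
-/

open Set

namespace Pool.Agent.Lib.MP_af06f6_co

open Classical in
theorem pf_CNT : Stm_CNT := by
  intro α β V F I x z hC f hf f' hf' hadj hex
  obtain ⟨A, hA⟩ : ∃ A : Finset β, A = F.filter (fun g => g ≠ f' ∧ AdjI V I f g ∧ ¬ AdjI V I f' g) := ⟨_, rfl⟩
  have hAm : ∀ g, g ∈ A ↔ g ∈ F ∧ g ≠ f' ∧ AdjI V I f g ∧ ¬ AdjI V I f' g := by
    intro g; rw [hA, Finset.mem_filter]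
  have hnot : ∀ g ∈ F, AdjI V I f g → g ∉ A → g = f' ∨ AdjI V I f' g := by
    intro g hg h1 h2
    by_contra h3
    push Not at h3
    exact h2 ((hAm g).2 ⟨hg, h3.1, h1, h3.2⟩)
  by_cases hAe : A = ∅
  · right
    have h1 : ∀ h ∈ F, h ≠ f' → AdjI V I f h → AdjI V I f' h := by
      intro h hh hne h2
      exact (hnot h hh h2 (by rw [hAe]; exact Finset.notMem_empty _)).resolve_left hne
    have h2 : ¬ ∀ v ∈ V, I v f → ¬ I v f' → (fat F I v).card = 3 := fun h2 => hex ⟨h1, h2⟩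
    push Not at h2
    obtain ⟨v, hv, hvf, hvf', hcard⟩ := h2
    refine ⟨v, hv, hvf, hvf', ?_, ?_⟩
    · intro g hg h3 h4
      refine h1 g hg ?_ h3
      rintro rfl
      exact hvf' h4
    · have := hC.deg v hv
      omega
  · left
    obtain ⟨g₀, hg₀⟩ := Finset.nonempty_iff_ne_empty.2 hAe
    have hg₀' := (hAm g₀).1 hg₀
    obtain ⟨v, hv, hvf, g, hg, g', hg', ag, ag', hvg, hvg', hgA, hgA'⟩ :=
      hC.conn f hf (fun g => g ∈ A) ⟨g₀, hg₀'.1, hg₀'.2.2.1, hg₀⟩
        ⟨f', hf', hadj, fun h => ((hAm f').1 h).2.1 rfl⟩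
    change g ∈ A at hgA
    change g' ∉ A at hgA'
    obtain ⟨n, hn⟩ : ∃ n : α → ℕ, n = fun v => (A.filter (fun g => I v g)).card := ⟨_, rfl⟩
    -- the sum of n is even
    have hsum : ∑ v ∈ vof V I f, n v = 2 * A.card := by
      have h1 : ∑ v ∈ vof V I f, n v = ∑ g ∈ A, ((vof V I f).filter (fun v => I v g)).card := by
        simp only [hn, Finset.card_filter]
        exact Finset.sum_comm
      have h2 : ∀ g ∈ A, ((vof V I f).filter (fun v => I v g)).card = 2 := by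
        intro g hg
        have hgg := (hAm g).1 hg
        have h3 : (vof V I f).filter (fun v => I v g) = V.filter (fun v => I v f ∧ I v g) := by
          rw [vof, Finset.filter_filter]
        rw [h3]
        refine le_antisymm (hC.common f hf g hgg.1 hgg.2.2.1.1) ?_
        obtain ⟨-, a, ha, b, hb, hab, haf, hag, hbf, hbg⟩ := hgg.2.2.1
        exact Finset.one_lt_card.2 ⟨a, Finset.mem_filter.2 ⟨ha, haf, hag⟩, b, Finset.mem_filter.2 ⟨hb, hbf, hbg⟩, hab⟩
      rw [h1, Finset.sum_congr rfl h2, Finset.sum_const, smul_eq_mul, mul_comm]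
    have hvv : v ∈ vof V I f := Finset.mem_filter.2 ⟨hv, hvf⟩
    have hnv : n v = 1 := by
      obtain ⟨g₁, g₂, h12, htwo⟩ := hC.two v hv f hf hvf
      rw [hn]
      refine Finset.card_eq_one.2 ⟨g, ?_⟩
      ext k
      rw [Finset.mem_filter, Finset.mem_singleton]
      constructor
      · rintro ⟨hk, hvk⟩
        have hk' := (hAm k).1 hk
        have e1 := (htwo k).1 ⟨hk'.1, hk'.2.2.1, hvk⟩
        have e2 := (htwo g).1 ⟨hg, ag, hvg⟩
        have e3 := (htwo g').1 ⟨hg', ag', hvg'⟩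
        have e4 : g ≠ g' := fun h => hgA' (h ▸ hgA)
        have e5 : k ≠ g' := fun h => hgA' (h ▸ hk)
        rcases e1 with rfl | rfl <;> rcases e2 with rfl | rfl <;> rcases e3 with rfl | rfl <;> first | rfl | exact absurd rfl e4 | exact absurd rfl e5
      · rintro rfl
        exact ⟨hgA, hvg⟩
    obtain ⟨w, hw, hwv, hnw⟩ : ∃ w ∈ vof V I f, w ≠ v ∧ n w % 2 = 1 := by
      by_contra hcon
      push Not at hcon
      have h1 : ∑ w ∈ (vof V I f).erase v, n w + n v = 2 * A.card := by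
        rw [Finset.sum_erase_add _ _ hvv, hsum]
      have h2 : 2 ∣ ∑ w ∈ (vof V I f).erase v, n w := by
        refine Finset.dvd_sum fun w hw => ?_
        have := hcon w (Finset.mem_of_mem_erase hw) (Finset.ne_of_mem_erase hw)
        omega
      omega
    obtain ⟨hwV, hwf⟩ := Finset.mem_filter.1 hw
    obtain ⟨g₁, g₂, h12, htwo⟩ := hC.two w hwV f hf hwf
    have b1 := (htwo g₁).2 (Or.inl rfl)
    have b2 := (htwo g₂).2 (Or.inr rfl)
    have hnot2 : ¬ (g₁ ∈ A ∧ g₂ ∈ A) := by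
      rintro ⟨m1, m2⟩
      have : n w = 2 := by
        rw [hn]
        refine Finset.card_eq_two.2 ⟨g₁, g₂, h12, ?_⟩
        ext k
        rw [Finset.mem_filter, Finset.mem_insert, Finset.mem_singleton]
        constructor
        · rintro ⟨hk, hwk⟩
          have hk' := (hAm k).1 hk
          exact (htwo k).1 ⟨hk'.1, hk'.2.2.1, hwk⟩
        · rintro (rfl | rfl)
          · exact ⟨m1, b1.2.2⟩
          · exact ⟨m2, b2.2.2⟩
      omega
    have hex1 : ∃ k ∈ A, I w k := by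
      by_contra hcon
      push Not at hcon
      have : n w = 0 := by
        rw [hn]
        refine Finset.card_eq_zero.2 (Finset.filter_eq_empty_iff.2 fun k hk => hcon k hk)
      omega
    have hex2 : ∃ k ∈ F, AdjI V I f k ∧ I w k ∧ k ∉ A := by
      by_cases m1 : g₁ ∈ A
      · exact ⟨g₂, b2.1, b2.2.1, b2.2.2, fun m2 => hnot2 ⟨m1, m2⟩⟩
      · exact ⟨g₁, b1.1, b1.2.1, b1.2.2, m1⟩
    obtain ⟨k, hk, hwk⟩ := hex1
    obtain ⟨l, hl, al, hwl, hlA⟩ := hex2
    have hk' := (hAm k).1 hk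
    have hg'' := (hAm g).1 hgA
    exact ⟨v, hv, w, hwV, hwv.symm, hvf, hwf, ⟨g, hg, hg''.2.1, ag, hvg, hg''.2.2.2⟩,
      ⟨g', hg', ag', hvg', hnot g' hg' ag' hgA'⟩, ⟨k, hk'.1, hk'.2.1, hk'.2.2.1, hwk, hk'.2.2.2⟩,
      ⟨l, hl, al, hwl, hnot l hl al hlA⟩⟩

end Pool.Agent.Lib.MP_af06f6_co
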