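import Mathlib
import Pool.Agent.Lib.MP_af06f6_co.D.Stm

open Set

namespace Pool.Agent.Lib.MP_af06f6_co

section
variable {α β : Type}

lemma DB_ph_nonneg {x z : ℝ} (hx : 0 < x) (hz : 0 < z) : 0 ≤ ph x z := by
  unfold ph th om
  have h1 : Real.arctan (z / x) < Real.pi / 2 := Real.arctan_lt_pi_div_two _
  have h2 : 0 ≤ Real.arctan (x * z) := Real.arctan_nonneg.2 (mul_pos hx hz).le
  linarith

lemma DB_mem_fat {F : Finset β} {I : α → β → Prop} {v : α} {f : β} :
    f ∈ fat F I v ↔ f ∈ F ∧ I v f := by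
  classical
  unfold fat
  simp

lemma DB_mem_vof {V : Finset α} {I : α → β → Prop} {v : α} {f : β} :
    v ∈ vof V I f ↔ v ∈ V ∧ I v f := by
  classical
  unfold vof
  simp

/-- swap of the double sum over flags -/
lemma DB_swap (V : Finset α) (F : Finset β) (I : α → β → Prop) (h : α → β → ℝ) :
    ∑ v ∈ V, ∑ f ∈ fat F I v, h v f = ∑ f ∈ F, ∑ v ∈ vof V I f, h v f := by
  apply Finset.sum_comm'
  intro v f
  rw [DB_mem_fat, DB_mem_vof]
  tauto

/-- two adjacent faces have exactly two common vertices -/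
lemma DB_two_common {V : Finset α} {F : Finset β} {I : α → β → Prop} {x : α → ℝ} {z : β → ℝ}
    (C : Cfg V F I x z) {f g : β} (hf : f ∈ F) (hg : g ∈ F) (h : AdjI V I f g) (c : ℝ) :
    (∑ v ∈ vof V I g, open Classical in if I v f then c else 0) = 2 * c := by
  classical
  obtain ⟨hne, v, hv, w, hw, hvw, h1, h2, h3, h4⟩ := h
  have hD : (V.filter (fun u => I u f ∧ I u g)).card ≤ 2 := by
    convert C.common f hf g hg hne
  have hsub : ({v, w} : Finset α) ⊆ V.filter (fun u => I u f ∧ I u g) := by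
    intro u hu
    rw [Finset.mem_insert, Finset.mem_singleton] at hu
    rw [Finset.mem_filter]
    rcases hu with rfl | rfl
    · exact ⟨hv, h1, h2⟩
    · exact ⟨hw, h3, h4⟩
  have hcard : ({v, w} : Finset α).card = 2 := Finset.card_pair hvw
  have heq : ({v, w} : Finset α) = V.filter (fun u => I u f ∧ I u g) :=
    Finset.eq_of_subset_of_card_le hsub (by rw [hcard]; exact hD)
  have heq2 : (vof V I g).filter (fun u => I u f) = V.filter (fun u => I u f ∧ I u g) := by
    ext u
    rw [Finset.mem_filter, Finset.mem_filter, DB_mem_vof]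
    tauto
  rw [← Finset.sum_filter, Finset.sum_const, heq2, ← heq, hcard]
  simp

/-- at every flag exactly two neighbours -/
lemma DB_count2 {V : Finset α} {F : Finset β} {I : α → β → Prop} {x : α → ℝ} {z : β → ℝ}
    (C : Cfg V F I x z) {v : α} (hv : v ∈ V) {f : β} (hf : f ∈ F) (h : I v f) (c : ℝ) :
    (∑ g ∈ fat F I v, open Classical in if AdjI V I f g then c else 0) = 2 * c := by
  classical
  obtain ⟨g₁, g₂, hne, hg⟩ := C.two v hv f hf h
  have heq : (fat F I v).filter (fun g => AdjI V I f g) = {g₁, g₂} := by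
    ext g
    rw [Finset.mem_filter, DB_mem_fat, Finset.mem_insert, Finset.mem_singleton, ← hg g]
    tauto
  rw [← Finset.sum_filter, Finset.sum_const, heq, Finset.card_pair hne]
  simp

/-- one neighbour different from a given face -/
lemma DB_exists_ne {V : Finset α} {F : Finset β} {I : α → β → Prop} {x : α → ℝ} {z : β → ℝ}
    (C : Cfg V F I x z) {v : α} (hv : v ∈ V) {f : β} (hf : f ∈ F) (h : I v f) (f' : β) :
    ∃ g ∈ fat F I v, AdjI V I f g ∧ g ≠ f' := by
  obtain ⟨g₁, g₂, hne, hg⟩ := C.two v hv f hf h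
  by_cases h1 : g₁ = f'
  · have h2 := (hg g₂).2 (Or.inr rfl)
    exact ⟨g₂, DB_mem_fat.2 ⟨h2.1, h2.2.2⟩, h2.2.1, fun h3 => hne (h1.trans h3.symm)⟩
  · have h2 := (hg g₁).2 (Or.inl rfl)
    exact ⟨g₁, DB_mem_fat.2 ⟨h2.1, h2.2.2⟩, h2.2.1, h1⟩

/-- sum of local inequalities -/
lemma DB_local (S : Finset β) (A r : β → ℝ) (t R : ℝ) (h : ∀ f ∈ S, A f + r f ≤ t)
    (hr : -R ≤ ∑ f ∈ S, r f) : ∑ f ∈ S, A f - R ≤ (S.card : ℝ) * t := by
  have h1 : ∑ f ∈ S, (A f + r f) ≤ (S.card : ℝ) * t := by
    have := Finset.sum_le_card_nsmul S _ t h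
    rwa [nsmul_eq_mul] at this
  rw [Finset.sum_add_distrib] at h1
  linarith

open Classical in
/-- the weights -/
noncomputable def DB_e (V : Finset α) (I : α → β → Prop) (x : α → ℝ) (z : β → ℝ) (u₀ u₁ : ℝ)
    (a : ℝ → ℝ) (f₀ f₁ : β) (v : α) (f : β) : ℝ :=
  if f = f₀ then u₀ * ph (x v) (z f₀) else if f = f₁ then u₁ * ph (x v) (z f₁) else
    if AdjI V I f₀ f then a (z f) * (ph (x v) (z f) - (if I v f₀ then Real.pi / 2 else 0)) else 0

open Classical in
lemma DB_vertex {V : Finset α} {F : Finset β} {I : α → β → Prop} {x : α → ℝ} {z : β → ℝ}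
    (C : Cfg V F I x z) {X Z K u₀ u₁ Y₀ Y₁ κ xs : ℝ} {g a G H GB HB HC0 HC1 GC : ℝ → ℝ}
    {f₀ f₁ : β} (h0 : f₀ ∈ F) (h1 : f₁ ∈ F) (h01 : f₀ ≠ f₁) (hX : ∀ v ∈ V, x v ≤ X)
    (hZ : ∀ h ∈ F, h ≠ f₀ → h ≠ f₁ → z h ≤ Z)
    (RB : RowsB X Z K g a G H GB HB HC0 HC1 GC)
    (RV : RowsBV X K (z f₀) (z f₁) u₀ u₁ Y₀ Y₁ κ xs G H GB HB HC0 HC1 GC)
    {v : α} (hv : v ∈ V) (kk : ℝ) (hkk : kk = 0 ∨ (kk = κ ∧ x v ≤ xs)) :
    ∑ f ∈ fat F I v, (4 * K * om (x v) (z f) + DB_e V I x z u₀ u₁ a f₀ f₁ v f)
      - (if I v f₀ ∧ I v f₁ then Y₀ + Y₁ - 2 * kk else 0) ≤ ((fat F I v).card : ℝ) * tt (x v) := by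
  have hx0 := C.x0 v hv
  have hxX := hX v hv
  have hψ := C.vert v hv
  have hnself : ∀ f : β, ¬ AdjI V I f f := fun f h => h.1 rfl
  by_cases c0 : I v f₀
  · by_cases c1 : I v f₁
    · -- both
      rw [if_pos ⟨c0, c1⟩]
      have HCn := RB.HC (x v) hx0 hxX
      have r0 : u₀ * ph (x v) (z f₀) + 4 * K * om (x v) (z f₀)
          - GC (x v) * (Real.pi / 2 - ps (x v) (z f₀)) - HC0 (x v) - Y₀ + kk ≤ tt (x v) := by
        rcases hkk with rfl | ⟨rfl, hxs⟩
        · have := RV.VC0 (x v) hx0 hxX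
          linarith
        · exact RV.VC0k (x v) hx0 hxX hxs
      have r1 : u₁ * ph (x v) (z f₁) + 4 * K * om (x v) (z f₁)
          - GC (x v) * (Real.pi / 2 - ps (x v) (z f₁)) - HC1 (x v) - Y₁ + kk ≤ tt (x v) := by
        rcases hkk with rfl | ⟨rfl, hxs⟩
        · have := RV.VC1 (x v) hx0 hxX
          linarith
        · exact RV.VC1k (x v) hx0 hxX hxs
      refine DB_local (fat F I v) _ (fun f => GC (x v) * ps (x v) (z f)
        + (if f = f₀ then -(GC (x v) * (Real.pi / 2)) - HC0 (x v) - Y₀ + kk else 0)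
        + (if f = f₁ then -(GC (x v) * (Real.pi / 2)) - HC1 (x v) - Y₁ + kk else 0)
        + (if AdjI V I f₀ f ∧ f ≠ f₁ then HC0 (x v) + HC1 (x v) else 0)) _ _ ?_ ?_
      · intro f hf
        rw [DB_mem_fat] at hf
        unfold DB_e
        by_cases e0 : f = f₀
        · subst e0
          rw [if_pos rfl, if_pos rfl, if_neg h01, if_neg (fun h => hnself _ h.1)]
          linarith
        · by_cases e1 : f = f₁
          · subst e1
            rw [if_neg e0, if_neg e0, if_pos rfl, if_pos rfl, if_neg (fun h => h.2 rfl)]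
            linarith
          · rw [if_neg e0, if_neg e0, if_neg e1, if_neg e1]
            have hz0 := C.z0 f hf.1
            have hzZ := hZ f hf.1 e0 e1
            by_cases ea : AdjI V I f₀ f
            · rw [if_pos ea, if_pos c0, if_pos ⟨ea, e1⟩]
              have := RB.Ca (x v) (z f) hx0 hxX hz0 hzZ
              linarith
            · rw [if_neg ea, if_neg (fun h => ea h.1)]
              have := RB.Co (x v) (z f) hx0 hxX hz0 hzZ
              linarith
      · rw [Finset.sum_add_distrib, Finset.sum_add_distrib, Finset.sum_add_distrib,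
          ← Finset.mul_sum, hψ, Finset.sum_ite_eq', Finset.sum_ite_eq',
          if_pos (DB_mem_fat.2 ⟨h0, c0⟩), if_pos (DB_mem_fat.2 ⟨h1, c1⟩)]
        obtain ⟨g', hg', hga, hgn⟩ := DB_exists_ne C hv h0 c0 f₁
        have hs : HC0 (x v) + HC1 (x v) ≤ ∑ f ∈ fat F I v,
            (if AdjI V I f₀ f ∧ f ≠ f₁ then HC0 (x v) + HC1 (x v) else 0) := by
          have := Finset.single_le_sum (s := fat F I v)
            (f := fun f => (if AdjI V I f₀ f ∧ f ≠ f₁ then HC0 (x v) + HC1 (x v) else 0))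
            (fun f _ => by split_ifs <;> simp [HCn]) hg'
          simp only [if_pos (And.intro hga hgn)] at this
          exact this
        linarith
    · -- only f₀
      rw [if_neg (fun h => c1 h.2)]
      refine DB_local (fat F I v) _ (fun f => G (x v) * ps (x v) (z f)
        + (if f = f₀ then -(G (x v) * Real.pi) - 2 * H (x v) else 0)
        + (if AdjI V I f₀ f then H (x v) else 0)) _ _ ?_ ?_
      · intro f hf
        rw [DB_mem_fat] at hf
        unfold DB_e
        have e1 : f ≠ f₁ := fun h => c1 (h ▸ hf.2)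
        by_cases e0 : f = f₀
        · subst e0
          rw [if_pos rfl, if_pos rfl, if_neg (hnself _)]
          have := RV.V0 (x v) hx0 hxX
          linarith
        · rw [if_neg e0, if_neg e0, if_neg e1]
          have hz0 := C.z0 f hf.1
          have hzZ := hZ f hf.1 e0 e1
          by_cases ea : AdjI V I f₀ f
          · rw [if_pos ea, if_pos c0, if_pos ea]
            have := RB.Aa (x v) (z f) hx0 hxX hz0 hzZ
            linarith
          · rw [if_neg ea, if_neg ea]
            have := RB.Ao (x v) (z f) hx0 hxX hz0 hzZ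
            linarith
      · rw [Finset.sum_add_distrib, Finset.sum_add_distrib,
          ← Finset.mul_sum, hψ, Finset.sum_ite_eq', if_pos (DB_mem_fat.2 ⟨h0, c0⟩),
          DB_count2 C hv h0 c0]
        linarith
  · by_cases c1 : I v f₁
    · -- only f₁
      rw [if_neg (fun h => c0 h.1)]
      refine DB_local (fat F I v) _ (fun f => GB (x v) * ps (x v) (z f)
        + (if f = f₁ then -(GB (x v) * Real.pi) - 2 * HB (x v) else 0)
        + (if AdjI V I f₁ f then HB (x v) else 0)) _ _ ?_ ?_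
      · intro f hf
        rw [DB_mem_fat] at hf
        unfold DB_e
        have e0 : f ≠ f₀ := fun h => c0 (h ▸ hf.2)
        by_cases e1 : f = f₁
        · subst e1
          rw [if_neg e0, if_pos rfl, if_pos rfl, if_neg (hnself _)]
          have := RV.V1 (x v) hx0 hxX
          linarith
        · rw [if_neg e0, if_neg e1, if_neg e1]
          have hz0 := C.z0 f hf.1
          have hzZ := hZ f hf.1 e0 e1
          have hph := mul_nonneg (RB.a0 (z f) hz0 hzZ) (DB_ph_nonneg hx0 hz0)
          have hle : (if AdjI V I f₀ f then a (z f) * (ph (x v) (z f)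
              - (if I v f₀ then Real.pi / 2 else 0)) else 0) ≤ a (z f) * ph (x v) (z f) := by
            split_ifs
            · simp
            · exact hph
          by_cases ea : AdjI V I f₁ f
          · rw [if_pos ea]
            have := RB.Bc (x v) (z f) hx0 hxX hz0 hzZ
            linarith
          · rw [if_neg ea]
            have := RB.Ba (x v) (z f) hx0 hxX hz0 hzZ
            linarith
      · rw [Finset.sum_add_distrib, Finset.sum_add_distrib,
          ← Finset.mul_sum, hψ, Finset.sum_ite_eq', if_pos (DB_mem_fat.2 ⟨h1, c1⟩),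
          DB_count2 C hv h1 c1]
        linarith
    · -- neither
      rw [if_neg (fun h => c0 h.1)]
      refine DB_local (fat F I v) _ (fun f => Real.pi * g (x v)
        + (-(3 * g (x v))) * ps (x v) (z f)) _ _ ?_ ?_
      · intro f hf
        rw [DB_mem_fat] at hf
        unfold DB_e
        have e0 : f ≠ f₀ := fun h => c0 (h ▸ hf.2)
        have e1 : f ≠ f₁ := fun h => c1 (h ▸ hf.2)
        rw [if_neg e0, if_neg e1]
        have hz0 := C.z0 f hf.1
        have hzZ := hZ f hf.1 e0 e1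
        by_cases ea : AdjI V I f₀ f
        · rw [if_pos ea, if_neg c0]
          have := RB.Na (x v) (z f) hx0 hxX hz0 hzZ
          linarith
        · rw [if_neg ea]
          have := RB.No (x v) (z f) hx0 hxX hz0 hzZ
          linarith
      · have e : ∑ f ∈ fat F I v, (-(3 * g (x v))) * ps (x v) (z f)
            = (-(3 * g (x v))) * Real.pi := by rw [← Finset.mul_sum, hψ]
        rw [Finset.sum_add_distrib, e, Finset.sum_const, nsmul_eq_mul]
        have hd : (3 : ℝ) ≤ ((fat F I v).card : ℝ) := by exact_mod_cast C.deg v hv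
        have hg := RB.g0 (x v) hx0 hxX
        have := mul_nonneg (mul_nonneg Real.pi_pos.le hg) (sub_nonneg.2 hd)
        nlinarith

open Classical in
lemma DB_sum_e {V : Finset α} {F : Finset β} {I : α → β → Prop} {x : α → ℝ} {z : β → ℝ}
    (C : Cfg V F I x z) {u₀ u₁ : ℝ} {a : ℝ → ℝ}
    {f₀ f₁ : β} (h0 : f₀ ∈ F) (h1 : f₁ ∈ F) (h01 : f₀ ≠ f₁) :
    ∑ v ∈ V, ∑ f ∈ fat F I v, DB_e V I x z u₀ u₁ a f₀ f₁ v f = Real.pi * (u₀ + u₁) := by
  rw [DB_swap]
  have key : ∀ f ∈ F, ∑ v ∈ vof V I f, DB_e V I x z u₀ u₁ a f₀ f₁ v f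
      = (if f = f₀ then Real.pi * u₀ else 0) + (if f = f₁ then Real.pi * u₁ else 0) := by
    intro f hf
    unfold DB_e
    by_cases e0 : f = f₀
    · subst e0
      simp only [if_true, if_neg h01, add_zero]
      rw [← Finset.mul_sum, C.face f hf]
      ring
    · by_cases e1 : f = f₁
      · subst e1
        simp only [if_true, if_neg e0, zero_add]
        rw [← Finset.mul_sum, C.face f hf]
        ring
      · simp only [if_neg e0, if_neg e1, add_zero]
        by_cases ea : AdjI V I f₀ f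
        · simp only [if_pos ea]
          rw [← Finset.mul_sum, Finset.sum_sub_distrib, C.face f hf,
            DB_two_common C h0 hf ea]
          ring
        · simp only [if_neg ea, Finset.sum_const_zero]
  rw [Finset.sum_congr rfl key, Finset.sum_add_distrib, Finset.sum_ite_eq', Finset.sum_ite_eq',
    if_pos h0, if_pos h1]
  ring

theorem pf_DB : Stm_DB := by
  classical
  intro α β V F I x z C X Z K u₀ u₁ Y₀ Y₁ κ xs g a G H GB HB HC0 HC1 GC f₀ f₁ h0 h1 h01 hX hZ
    RB RV hκ hY hcase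
  have main : ∀ kk : α → ℝ, (∀ v ∈ V, kk v = 0 ∨ (kk v = κ ∧ x v ≤ xs)) →
      Real.pi * (u₀ + u₁ + 4 * K)
        - ∑ v ∈ V, (if I v f₀ ∧ I v f₁ then Y₀ + Y₁ - 2 * kk v else 0) ≤ Len V F I x := by
    intro kk hkk
    have h : ∑ v ∈ V, (∑ f ∈ fat F I v, (4 * K * om (x v) (z f)
        + DB_e V I x z u₀ u₁ a f₀ f₁ v f)
        - (if I v f₀ ∧ I v f₁ then Y₀ + Y₁ - 2 * kk v else 0)) ≤ Len V F I x := by
      unfold Len
      exact Finset.sum_le_sum fun v hv => DB_vertex C h0 h1 h01 hX hZ RB RV hv (kk v) (hkk v hv)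
    rw [Finset.sum_sub_distrib] at h
    simp only [Finset.sum_add_distrib] at h
    rw [DB_sum_e C h0 h1 h01] at h
    simp only [← Finset.mul_sum] at h
    rw [C.tot] at h
    linarith
  set D : Finset α := V.filter (fun v => I v f₀ ∧ I v f₁) with hD
  have hDc : D.card ≤ 2 := by
    convert C.common f₀ h0 f₁ h1 h01
  have hYn : 0 ≤ Y₀ + Y₁ := by linarith
  have hsum : ∀ kk : α → ℝ, ∑ v ∈ V, (if I v f₀ ∧ I v f₁ then Y₀ + Y₁ - 2 * kk v else 0)
      = (D.card : ℝ) * (Y₀ + Y₁) - 2 * ∑ v ∈ D, kk v := by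
    intro kk
    rw [← Finset.sum_filter, Finset.sum_sub_distrib, Finset.sum_const, nsmul_eq_mul,
      ← Finset.mul_sum]
  have hDc' : (D.card : ℝ) ≤ 2 := by exact_mod_cast hDc
  rcases hcase with hk0 | ⟨v0, hv0, hv0a, hv0b, hv0x⟩ | hnadj
  · have h := main (fun _ => 0) (fun v _ => Or.inl rfl)
    rw [hsum] at h
    simp only [Finset.sum_const_zero, mul_zero, sub_zero] at h
    have := mul_le_mul_of_nonneg_right hDc' hYn
    subst hk0
    linarith
  · have h := main (fun v => if v = v0 then κ else 0) (fun v _ => by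
      by_cases e : v = v0
      · right
        rw [if_pos e, e]
        exact ⟨rfl, hv0x⟩
      · left
        rw [if_neg e])
    rw [hsum] at h
    have hm : v0 ∈ D := by
      rw [hD, Finset.mem_filter]
      exact ⟨hv0, hv0a, hv0b⟩
    rw [Finset.sum_ite_eq', if_pos hm] at h
    have := mul_le_mul_of_nonneg_right hDc' hYn
    linarith
  · have h := main (fun _ => 0) (fun v _ => Or.inl rfl)
    rw [hsum] at h
    simp only [Finset.sum_const_zero, mul_zero, sub_zero] at h
    have hD1 : D.card ≤ 1 := by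
      rw [Finset.card_le_one]
      intro p hp q hq
      by_contra hne
      rw [hD, Finset.mem_filter] at hp hq
      exact hnadj ⟨h01, p, hp.1, q, hq.1, hne, hp.2.1, hp.2.2, hq.2.1, hq.2.2⟩
    have hD1' : (D.card : ℝ) ≤ 1 := by exact_mod_cast hD1
    have := mul_le_mul_of_nonneg_right hD1' hYn
    linarith

end

end Pool.Agent.Lib.MP_af06f6_co
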