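import Mathlib
import Pool.Agent.Lib.MP_af06f6_co.D.Stm

/-!
# MP_af06f6_co, discharging part, DN and DX
-/

open Set

namespace Pool.Agent.Lib.MP_af06f6_co

open Classical

/-! ## Finite sums -/

section sums
variable {β : Type}

private lemma dnx_sum3 (S : Finset β) (f n₁ n₂ : β) (hf : f ∈ S) (h1 : n₁ ∈ S) (h2 : n₂ ∈ S)
    (h1f : n₁ ≠ f) (h2f : n₂ ≠ f) (h12 : n₁ ≠ n₂) (w : β → ℝ) :
    ∑ g ∈ S, w g = w f + w n₁ + w n₂ + ∑ g ∈ ((S.erase f).erase n₁).erase n₂, w g := by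
  rw [← Finset.add_sum_erase S w hf,
    ← Finset.add_sum_erase (S.erase f) w (Finset.mem_erase.2 ⟨h1f, h1⟩),
    ← Finset.add_sum_erase ((S.erase f).erase n₁) w
      (Finset.mem_erase.2 ⟨h12.symm, Finset.mem_erase.2 ⟨h2f, h2⟩⟩)]
  ring

private lemma dnx_card3 (S : Finset β) (f n₁ n₂ : β) (hf : f ∈ S) (h1 : n₁ ∈ S) (h2 : n₂ ∈ S)
    (h1f : n₁ ≠ f) (h2f : n₂ ≠ f) (h12 : n₁ ≠ n₂) :
    (S.card : ℝ) = 3 + ((((S.erase f).erase n₁).erase n₂).card : ℝ) := by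
  have h := dnx_sum3 S f n₁ n₂ hf h1 h2 h1f h2f h12 (fun _ => 1)
  simp only [Finset.sum_const, nsmul_eq_mul, mul_one] at h
  rw [h]; ring

private lemma dnx_loc3 (S : Finset β) (f n₁ n₂ : β) (hf : f ∈ S) (h1 : n₁ ∈ S) (h2 : n₂ ∈ S)
    (h1f : n₁ ≠ f) (h2f : n₂ ≠ f) (h12 : n₁ ≠ n₂) (o p W : β → ℝ) (t K G u φ a₁ a₂ e₀ e P : ℝ)
    (hps : ∑ g ∈ S, p g = P) (hW : W f = 0)
    (rf : u * φ + 4 * K * o f - G * (P - p f) - a₁ - a₂ + e₀ ≤ t)
    (r1 : 4 * K * o n₁ + G * p n₁ + a₁ + W n₁ ≤ t)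
    (r2 : 4 * K * o n₂ + G * p n₂ + a₂ + W n₂ ≤ t)
    (ro : ∀ g ∈ S, g ≠ f → g ≠ n₁ → g ≠ n₂ → 4 * K * o g + G * p g + W g + e ≤ t) :
    4 * K * ∑ g ∈ S, o g + u * φ + ∑ g ∈ S, W g + e₀ + ((S.card : ℝ) - 3) * e ≤ (S.card : ℝ) * t := by
  have k1 := dnx_sum3 S f n₁ n₂ hf h1 h2 h1f h2f h12 o
  have k2 := dnx_sum3 S f n₁ n₂ hf h1 h2 h1f h2f h12 p
  have k3 := dnx_sum3 S f n₁ n₂ hf h1 h2 h1f h2f h12 W
  have k4 := dnx_card3 S f n₁ n₂ hf h1 h2 h1f h2f h12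
  set T := ((S.erase f).erase n₁).erase n₂ with hT
  have hsum : ∑ g ∈ T, (4 * K * o g + G * p g + W g + e) ≤ (T.card : ℝ) * t := by
    rw [← nsmul_eq_mul]
    refine Finset.sum_le_card_nsmul T _ t fun g hg => ?_
    simp only [hT, Finset.mem_erase] at hg
    exact ro g hg.2.2.2 hg.2.2.1 hg.2.1 hg.1
  have hexp : ∑ g ∈ T, (4 * K * o g + G * p g + W g + e) =
      4 * K * ∑ g ∈ T, o g + G * ∑ g ∈ T, p g + ∑ g ∈ T, W g + (T.card : ℝ) * e := by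
    simp only [Finset.sum_add_distrib, Finset.mul_sum, Finset.sum_const, nsmul_eq_mul]
  rw [hexp] at hsum
  rw [k1, k3, k4, hW]
  rw [hps] at k2
  subst k2
  linarith

private lemma dnx_locN (S : Finset β) (o p W : β → ℝ) (t K g P : ℝ) (hg : 0 ≤ g) (hP : 0 ≤ P)
    (hps : ∑ h ∈ S, p h = P) (hc : 3 ≤ S.card)
    (r : ∀ h ∈ S, 4 * K * o h + W h + P * g ≤ t + 3 * g * p h) :
    4 * K * ∑ h ∈ S, o h + ∑ h ∈ S, W h ≤ (S.card : ℝ) * t := by
  have hsum : ∑ h ∈ S, (4 * K * o h + W h + P * g - 3 * g * p h) ≤ (S.card : ℝ) * t := by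
    rw [← nsmul_eq_mul]
    refine Finset.sum_le_card_nsmul S _ t fun h hh => ?_
    have := r h hh
    linarith
  have hexp : ∑ h ∈ S, (4 * K * o h + W h + P * g - 3 * g * p h) =
      4 * K * ∑ h ∈ S, o h + ∑ h ∈ S, W h + (S.card : ℝ) * (P * g) - 3 * g * ∑ h ∈ S, p h := by
    simp only [Finset.sum_add_distrib, Finset.sum_sub_distrib, Finset.mul_sum, Finset.sum_const, nsmul_eq_mul]
  rw [hexp, hps] at hsum
  have hc' : (3 : ℝ) ≤ S.card := by exact_mod_cast hc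
  have : 0 ≤ ((S.card : ℝ) - 3) * (P * g) := mul_nonneg (by linarith) (mul_nonneg hP hg)
  linarith

end sums

/-! ## Elementary facts -/

section basics
variable {α β : Type} {V : Finset α} {F : Finset β} {I : α → β → Prop} {x : α → ℝ} {z : β → ℝ}

private lemma dnx_symm {f g : β} (h : AdjI V I f g) : AdjI V I g f := by
  obtain ⟨hne, v, hv, w, hw, hvw, h1, h2, h3, h4⟩ := h
  exact ⟨hne.symm, v, hv, w, hw, hvw, h2, h1, h4, h3⟩

private lemma dnx_mem_fat {v : α} {g : β} : g ∈ fat F I v ↔ g ∈ F ∧ I v g := by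
  unfold fat; exact Finset.mem_filter

private lemma dnx_mem_vof {v : α} {g : β} : v ∈ vof V I g ↔ v ∈ V ∧ I v g := by
  unfold vof; exact Finset.mem_filter

private lemma dnx_card_two (C : Cfg V F I x z) {f g : β} (hf : f ∈ F) (hg : g ∈ F) (h : AdjI V I f g) :
    (V.filter (fun v => I v f ∧ I v g)).card = 2 := by
  refine le_antisymm (C.common f hf g hg h.1) ?_
  obtain ⟨-, v, hv, w, hw, hvw, h1, h2, h3, h4⟩ := h
  exact Finset.one_lt_card.2 ⟨v, Finset.mem_filter.2 ⟨hv, h1, h2⟩, w, Finset.mem_filter.2 ⟨hw, h3, h4⟩, hvw⟩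

private lemma dnx_th_nonneg {x z : ℝ} (hx : 0 < x) (hz : 0 < z) : 0 ≤ th x z := by
  unfold th; exact Real.arctan_nonneg.2 (by positivity)

private lemma dnx_om_nonneg {x z : ℝ} (hx : 0 < x) (hz : 0 < z) : 0 ≤ om x z := by
  unfold om; exact Real.arctan_nonneg.2 (by positivity)

private lemma dnx_th_le_ps {x z : ℝ} (hx : 0 < x) (hz : 0 < z) : th x z ≤ ps x z := by
  unfold ps; linarith [dnx_om_nonneg hx hz]

private lemma dnx_ps_nonneg {x z : ℝ} (hx : 0 < x) (hz : 0 < z) : 0 ≤ ps x z :=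
  (dnx_th_nonneg hx hz).trans (dnx_th_le_ps hx hz)

private lemma dnx_ph_nonneg {x z : ℝ} (hx : 0 < x) (hz : 0 < z) : 0 ≤ ph x z := by
  unfold ph
  have h1 := dnx_om_nonneg hx hz
  have h2 : th x z < Real.pi / 2 := by unfold th; exact Real.arctan_lt_pi_div_two _
  linarith

private lemma dnx_arctan_le_ps {x z c : ℝ} (hx : 0 < x) (hz : 0 < z) (hc : c ≤ z) :
    Real.arctan (c / x) ≤ ps x z := by
  refine le_trans ?_ (dnx_th_le_ps hx hz)
  unfold th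
  exact Real.arctan_strictMono.monotone (by gcongr)

private lemma dnx_tt_ge {x : ℝ} (hx : 0 < x) (hx1 : x < 1) : 2 * x ≤ tt x := by
  unfold tt
  have h : 0 < 1 - x ^ 2 := by nlinarith
  rw [le_div_iff₀ h]
  nlinarith [mul_pos hx (pow_pos hx 2)]

private lemma dnx_om_le {x z : ℝ} (hx : 0 < x) (hz : 0 < z) : om x z ≤ x * z := by
  unfold om
  have h := Real.le_tan (Real.arctan_nonneg.2 (by positivity : 0 ≤ x * z)) (Real.arctan_lt_pi_div_two _)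
  rwa [Real.tan_arctan] at h

/-- if the sum of four distinct nonnegative entries is part of the sum `π` -/
private lemma dnx_restr (C : Cfg V F I x z) {v : α} (hv : v ∈ V) {f n₁ n₂ g : β} {zc : ℝ}
    (hf : f ∈ fat F I v) (h1 : n₁ ∈ fat F I v) (h2 : n₂ ∈ fat F I v) (hg : g ∈ fat F I v)
    (h1f : n₁ ≠ f) (h2f : n₂ ≠ f) (h12 : n₁ ≠ n₂) (hgf : g ≠ f) (hg1 : g ≠ n₁) (hg2 : g ≠ n₂)
    (hc1 : zc ≤ z n₁) (hc2 : zc ≤ z n₂) :
    th (x v) (z g) + 2 * Real.arctan (zc / x v) + ps (x v) (z f) ≤ Real.pi := by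
  have hx := C.x0 v hv
  have hz : ∀ h ∈ fat F I v, 0 < z h := fun h hh => C.z0 h (dnx_mem_fat.1 hh).1
  have k := dnx_sum3 (fat F I v) f n₁ n₂ hf h1 h2 h1f h2f h12 (fun h => ps (x v) (z h))
  rw [C.vert v hv] at k
  have hgT : g ∈ (((fat F I v).erase f).erase n₁).erase n₂ := by
    simp only [Finset.mem_erase]; exact ⟨hg2, hg1, hgf, hg⟩
  have hT : ps (x v) (z g) ≤ ∑ h ∈ (((fat F I v).erase f).erase n₁).erase n₂, ps (x v) (z h) := by
    refine Finset.single_le_sum (f := fun h => ps (x v) (z h)) (fun h hh => ?_) hgT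
    simp only [Finset.mem_erase] at hh
    exact dnx_ps_nonneg hx (hz h hh.2.2.2)
  have e1 := dnx_arctan_le_ps hx (hz n₁ h1) hc1
  have e2 := dnx_arctan_le_ps hx (hz n₂ h2) hc2
  have e3 := dnx_th_le_ps hx (hz g hg)
  linarith

/-- weights -/
private noncomputable def dnW (V : Finset α) (I : α → β → Prop) (x : α → ℝ) (z : β → ℝ) (f₀ f₁ : β)
    (a c d : ℝ → ℝ) (v : α) (g : β) : ℝ :=
  if g ≠ f₁ ∧ AdjI V I f₀ g ∧ ¬ AdjI V I f₁ g then
    a (z g) * (ph (x v) (z g) - (if I v f₀ then Real.pi / 2 else 0))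
  else if AdjI V I f₀ g ∧ AdjI V I f₁ g then
    c (z g) * (ph (x v) (z g) - (if I v f₀ then Real.pi / 2 else 0)) +
      d (z g) * ((if I v f₀ then 1 else 0) - (if I v f₁ then 1 else 0))
  else 0

variable {f₀ f₁ : β} {a c d : ℝ → ℝ} {v : α} {h : β}

private lemma dnW_a (h1 : h ≠ f₁) (h2 : AdjI V I f₀ h) (h3 : ¬ AdjI V I f₁ h) :
    dnW V I x z f₀ f₁ a c d v h = a (z h) * (ph (x v) (z h) - (if I v f₀ then Real.pi / 2 else 0)) := by
  unfold dnW; rw [if_pos ⟨h1, h2, h3⟩]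

private lemma dnW_c (h2 : AdjI V I f₀ h) (h3 : AdjI V I f₁ h) :
    dnW V I x z f₀ f₁ a c d v h = c (z h) * (ph (x v) (z h) - (if I v f₀ then Real.pi / 2 else 0)) +
      d (z h) * ((if I v f₀ then 1 else 0) - (if I v f₁ then 1 else 0)) := by
  unfold dnW; rw [if_neg (fun h => h.2.2 h3), if_pos ⟨h2, h3⟩]

private lemma dnW_o (h2 : ¬ AdjI V I f₀ h) : dnW V I x z f₀ f₁ a c d v h = 0 := by
  unfold dnW; rw [if_neg (fun h => h2 h.2.1), if_neg (fun h => h2 h.1)]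

private lemma dnW_f0 : dnW V I x z f₀ f₁ a c d v f₀ = 0 := dnW_o (fun h => h.1 rfl)

private lemma dnW_f1 : dnW V I x z f₀ f₁ a c d v f₁ = 0 := by
  unfold dnW; rw [if_neg (fun h => h.1 rfl), if_neg (fun h => h.2.1 rfl)]

/-- for every face the weights sum up to zero -/
private lemma dnx_face_sum (C : Cfg V F I x z) (hf₀ : f₀ ∈ F) (hf₁ : f₁ ∈ F) {g : β} (hg : g ∈ F) :
    ∑ v ∈ vof V I g, dnW V I x z f₀ f₁ a c d v g = 0 := by
  have hcount : ∀ f ∈ F, AdjI V I f g → ∀ s : ℝ, ∑ v ∈ vof V I g, (if I v f then s else 0) = 2 * s := by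
    intro f hf hadj s
    have h2 := dnx_card_two C hf hg hadj
    rw [← Finset.sum_filter]
    have : (vof V I g).filter (fun v => I v f) = V.filter (fun v => I v f ∧ I v g) := by
      ext w
      simp only [Finset.mem_filter, dnx_mem_vof]
      tauto
    rw [this, Finset.sum_const, h2]
    simp
  by_cases ha : AdjI V I f₀ g
  · by_cases hc : AdjI V I f₁ g
    · simp only [dnW_c ha hc]
      rw [Finset.sum_add_distrib, ← Finset.mul_sum, ← Finset.mul_sum, Finset.sum_sub_distrib, Finset.sum_sub_distrib,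
        C.face g hg, hcount f₀ hf₀ ha, hcount f₀ hf₀ ha, hcount f₁ hf₁ hc]
      ring
    · by_cases h1 : g = f₁
      · subst h1; simp [dnW_f1]
      · simp only [dnW_a h1 ha hc]
        rw [← Finset.mul_sum, Finset.sum_sub_distrib, C.face g hg, hcount f₀ hf₀ ha]
        ring
  · simp [dnW_o ha]

/-! ## Credits -/

private def dnMx (V : Finset α) (F : Finset β) (I : α → β → Prop) (f f' : β) (v : α) : Prop :=
  I v f ∧ (∃ g ∈ F, g ≠ f' ∧ AdjI V I f g ∧ I v g ∧ ¬ AdjI V I f' g) ∧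
    (∃ g ∈ F, AdjI V I f g ∧ I v g ∧ (g = f' ∨ AdjI V I f' g))

private def dnBg (V : Finset α) (F : Finset β) (I : α → β → Prop) (f f' : β) (v : α) : Prop :=
  I v f ∧ ¬ I v f' ∧ (∀ g ∈ F, AdjI V I f g → I v g → AdjI V I f' g) ∧ 4 ≤ (fat F I v).card

private noncomputable def dnCr (V : Finset α) (F : Finset β) (I : α → β → Prop) (f f' : β) (v : α) : ℝ :=
  (if dnMx V F I f f' v then 1 else 0) + (if dnBg V F I f f' v then 2 else 0)

private lemma dnCr_nonneg {f f' : β} {v : α} : 0 ≤ dnCr V F I f f' v := by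
  unfold dnCr; split_ifs <;> norm_num

private lemma dnCr_off {f f' : β} {v : α} (h : ¬ I v f) : dnCr V F I f f' v = 0 := by
  unfold dnCr
  rw [if_neg (fun h' => h h'.1), if_neg (fun h' => h h'.1)]; norm_num

private lemma dnCr_le_one {f f' : β} {v : α} (h : ¬ dnBg V F I f f' v) : dnCr V F I f f' v ≤ 1 := by
  unfold dnCr
  rw [if_neg h]; split_ifs <;> norm_num

private lemma dnCr_zero {f f' : β} {v : α} (h : ¬ dnBg V F I f f' v) (h' : ¬ dnMx V F I f f' v) :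
    dnCr V F I f f' v = 0 := by
  unfold dnCr
  rw [if_neg h, if_neg h']; norm_num

/-- total credit at least two -/
private lemma dnx_credit (hC : Stm_CNT) (C : Cfg V F I x z) {f f' : β} (hf : f ∈ F) (hf' : f' ∈ F)
    (hadj : AdjI V I f f') (hne : ¬ ExactAt V F I f f') : 2 ≤ ∑ v ∈ V, dnCr V F I f f' v := by
  rcases hC α β V F I x z C f hf f' hf' hadj hne with ⟨v, hv, w, hw, hvw, hvf, hwf, a1, a2, b1, b2⟩ | ⟨v, hv, h1, h2, h3, h4⟩
  · have hsub : ({v, w} : Finset α) ⊆ V := by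
      intro y hy
      simp only [Finset.mem_insert, Finset.mem_singleton] at hy
      rcases hy with rfl | rfl
      · exact hv
      · exact hw
    refine le_trans ?_ (Finset.sum_le_sum_of_subset_of_nonneg hsub (fun _ _ _ => dnCr_nonneg))
    rw [Finset.sum_pair hvw]
    have e1 : 1 ≤ dnCr V F I f f' v := by
      unfold dnCr
      have : dnMx V F I f f' v := ⟨hvf, a1, a2⟩
      rw [if_pos this]; split_ifs <;> norm_num
    have e2 : 1 ≤ dnCr V F I f f' w := by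
      unfold dnCr
      have : dnMx V F I f f' w := ⟨hwf, b1, b2⟩
      rw [if_pos this]; split_ifs <;> norm_num
    linarith
  · refine le_trans ?_ (Finset.single_le_sum (fun _ _ => dnCr_nonneg) hv)
    unfold dnCr
    have : dnBg V F I f f' v := ⟨h1, h2, h3, h4⟩
    rw [if_pos this]; split_ifs <;> norm_num

/-! ## The global sum -/

private lemma dnx_global (C : Cfg V F I x z) (K νa νb u₀ u₁ Y κ : ℝ) (kap : α → ℝ)
    (hf₀ : f₀ ∈ F) (hf₁ : f₁ ∈ F) (hadj : AdjI V I f₀ f₁)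
    (hkap : ∑ v ∈ V.filter (fun v => I v f₀ ∧ I v f₁), kap v = κ)
    (hνa : 2 * νa ≤ νa * ∑ v ∈ V, dnCr V F I f₀ f₁ v)
    (hνb : 2 * νb ≤ νb * ∑ v ∈ V, dnCr V F I f₁ f₀ v)
    (hloc : ∀ v ∈ V, 4 * K * ∑ h ∈ fat F I v, om (x v) (z h) + (if I v f₀ then u₀ * ph (x v) (z f₀) else 0) +
      (if I v f₁ then u₁ * ph (x v) (z f₁) else 0) + ∑ h ∈ fat F I v, dnW V I x z f₀ f₁ a c d v h +
      (if I v f₀ ∧ I v f₁ then - Y + 2 * kap v else 0) + νa * dnCr V F I f₀ f₁ v +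
      νb * dnCr V F I f₁ f₀ v ≤ ((fat F I v).card : ℝ) * tt (x v)) :
    Real.pi * (u₀ + u₁ + 4 * K) - 2 * Y + 2 * κ + 2 * νa + 2 * νb ≤ Len V F I x := by
  have hsum := Finset.sum_le_sum hloc
  have hL : ∑ v ∈ V, ((fat F I v).card : ℝ) * tt (x v) = Len V F I x := rfl
  rw [hL] at hsum
  have s1 : ∑ v ∈ V, 4 * K * ∑ h ∈ fat F I v, om (x v) (z h) = 4 * K * Real.pi := by
    rw [← Finset.mul_sum, C.tot]
  have s2 : ∀ f ∈ F, ∀ u : ℝ, ∑ v ∈ V, (if I v f then u * ph (x v) (z f) else 0) = u * Real.pi := by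
    intro f hf u
    rw [← Finset.sum_filter, ← Finset.mul_sum]
    have := C.face f hf
    unfold vof at this
    rw [this]
  have s3 : ∑ v ∈ V, ∑ h ∈ fat F I v, dnW V I x z f₀ f₁ a c d v h = 0 := by
    have hcomm : ∑ v ∈ V, ∑ h ∈ fat F I v, dnW V I x z f₀ f₁ a c d v h =
        ∑ h ∈ F, ∑ v ∈ vof V I h, dnW V I x z f₀ f₁ a c d v h := by
      refine Finset.sum_comm' ?_
      intro v h
      simp only [dnx_mem_fat, dnx_mem_vof]
      tauto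
    rw [hcomm]
    exact Finset.sum_eq_zero fun h hh => dnx_face_sum C hf₀ hf₁ hh
  have s4 : ∑ v ∈ V, (if I v f₀ ∧ I v f₁ then - Y + 2 * kap v else 0) = - 2 * Y + 2 * κ := by
    rw [← Finset.sum_filter, Finset.sum_add_distrib, ← Finset.mul_sum, hkap, Finset.sum_const,
      dnx_card_two C hf₀ hf₁ hadj]
    simp
  simp only [Finset.sum_add_distrib] at hsum
  rw [s1, s2 f₀ hf₀, s2 f₁ hf₁, s3, s4, ← Finset.mul_sum, ← Finset.mul_sum] at hsum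
  linarith


/-! ## The types of vertices -/

section types
variable {X Z zc xm K νa νb u₀ u₁ Y₀ Y₁ κ xs : ℝ}
  {g G H G2 H2 H2a G3 H3 GB HB GB2 HB2 K2 HC0 HC1 GC HCa HCb : ℝ → ℝ}

private lemma dnx_typeN (C : Cfg V F I x z)
    (hX : ∀ v ∈ V, x v ≤ X) (hZ : ∀ h ∈ F, h ≠ f₀ → h ≠ f₁ → z h ≤ Z)
    (hcc : ∀ h ∈ F, AdjI V I h f₀ → AdjI V I h f₁ → zc ≤ z h)
    (E : RowsE X Z zc xm K νa g a c d G H G2 H2 H2a G3 H3 GB HB HC0 HC1 GC (z f₀))
    (hv : v ∈ V) (h0 : ¬ I v f₀) (h1 : ¬ I v f₁) :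
    4 * K * ∑ h ∈ fat F I v, om (x v) (z h) + ∑ h ∈ fat F I v, dnW V I x z f₀ f₁ a c d v h ≤
      ((fat F I v).card : ℝ) * tt (x v) := by
  refine dnx_locN (fat F I v) (fun h => om (x v) (z h)) (fun h => ps (x v) (z h))
    (fun h => dnW V I x z f₀ f₁ a c d v h) _ K (g (x v)) Real.pi (E.g0 _ (C.x0 v hv) (hX v hv))
    Real.pi_pos.le (C.vert v hv) (C.deg v hv) ?_
  intro h hh
  obtain ⟨hhF, hvh⟩ := dnx_mem_fat.1 hh
  have hn0 : h ≠ f₀ := by rintro rfl; exact h0 hvh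
  have hn1 : h ≠ f₁ := by rintro rfl; exact h1 hvh
  have hx := C.x0 v hv
  have hxX := hX v hv
  have hz := C.z0 h hhF
  have hzZ := hZ h hhF hn0 hn1
  by_cases ha : AdjI V I f₀ h
  · by_cases hc : AdjI V I f₁ h
    · have := E.Nc (x v) (z h) hx hxX (hcc h hhF (dnx_symm ha) (dnx_symm hc)) hzZ
      simp only [dnW_c ha hc, h0, h1, if_false]
      linarith
    · have := E.Na (x v) (z h) hx hxX hz hzZ
      simp only [dnW_a hn1 ha hc, h0, if_false]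
      linarith
  · have := E.No (x v) (z h) hx hxX hz hzZ
    simp only [dnW_o ha]
    linarith

private lemma dnx_typeA (C : Cfg V F I x z) (hf₀ : f₀ ∈ F)
    (hX : ∀ v ∈ V, x v ≤ X) (hZ : ∀ h ∈ F, h ≠ f₀ → h ≠ f₁ → z h ≤ Z)
    (hcc : ∀ h ∈ F, AdjI V I h f₀ → AdjI V I h f₁ → zc ≤ z h)
    (E : RowsE X Z zc xm K νa g a c d G H G2 H2 H2a G3 H3 GB HB HC0 HC1 GC (z f₀))
    (EV : RowsEV X xm K νa (z f₀) (z f₁) u₀ u₁ Y₀ Y₁ κ xs G H G2 H2 H2a G3 H3 GB HB HC0 HC1 GC)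
    (hv : v ∈ V) (h0 : I v f₀) (h1 : ¬ I v f₁) :
    4 * K * ∑ h ∈ fat F I v, om (x v) (z h) + u₀ * ph (x v) (z f₀) +
      ∑ h ∈ fat F I v, dnW V I x z f₀ f₁ a c d v h + νa * dnCr V F I f₀ f₁ v ≤
      ((fat F I v).card : ℝ) * tt (x v) := by
  obtain ⟨n₁, n₂, hn, htwo⟩ := C.two v hv f₀ hf₀ h0
  obtain ⟨m1F, m1a, m1v⟩ := (htwo n₁).2 (Or.inl rfl)
  obtain ⟨m2F, m2a, m2v⟩ := (htwo n₂).2 (Or.inr rfl)
  have hx := C.x0 v hv
  have hxX := hX v hv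
  have hn10 : n₁ ≠ f₀ := m1a.1.symm
  have hn20 : n₂ ≠ f₀ := m2a.1.symm
  have hn11 : n₁ ≠ f₁ := by rintro rfl; exact h1 m1v
  have hn21 : n₂ ≠ f₁ := by rintro rfl; exact h1 m2v
  have hS0 : f₀ ∈ fat F I v := dnx_mem_fat.2 ⟨hf₀, h0⟩
  have hS1 : n₁ ∈ fat F I v := dnx_mem_fat.2 ⟨m1F, m1v⟩
  have hS2 : n₂ ∈ fat F I v := dnx_mem_fat.2 ⟨m2F, m2v⟩
  have hdeg : (3 : ℝ) ≤ ((fat F I v).card : ℝ) := by exact_mod_cast C.deg v hv
  have hoth : ∀ h ∈ fat F I v, h ≠ n₁ → h ≠ n₂ → ¬ AdjI V I f₀ h := by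
    intro h hh hh1 hh2 hadj
    obtain ⟨hhF, hvh⟩ := dnx_mem_fat.1 hh
    rcases (htwo h).1 ⟨hhF, hadj, hvh⟩ with h | h
    · exact hh1 h
    · exact hh2 h
  have hothne : ∀ h ∈ fat F I v, h ≠ f₁ := by
    intro h hh hh1
    exact h1 (hh1 ▸ (dnx_mem_fat.1 hh).2)
  -- the symmetric core of the mixed case
  have mixed : ∀ m₁ m₂ : β, m₁ ∈ fat F I v → m₂ ∈ fat F I v → m₁ ≠ f₀ → m₂ ≠ f₀ → m₁ ≠ m₂ → m₁ ≠ f₁ → m₂ ≠ f₁ →
      AdjI V I f₀ m₁ → AdjI V I f₀ m₂ → AdjI V I f₁ m₁ → ¬ AdjI V I f₁ m₂ →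
      (∀ h ∈ fat F I v, h ≠ m₁ → h ≠ m₂ → ¬ AdjI V I f₀ h) →
      4 * K * ∑ h ∈ fat F I v, om (x v) (z h) + u₀ * ph (x v) (z f₀) +
        ∑ h ∈ fat F I v, dnW V I x z f₀ f₁ a c d v h + νa * dnCr V F I f₀ f₁ v ≤
        ((fat F I v).card : ℝ) * tt (x v) := by
    intro m₁ m₂ e1 e2 e3 e4 e5 e6 e7 a1 a2 b1 b2 ho
    have hm1F := (dnx_mem_fat.1 e1).1
    have hm2F := (dnx_mem_fat.1 e2).1
    have key := dnx_loc3 (fat F I v) f₀ m₁ m₂ hS0 e1 e2 e3 e4 e5 (fun h => om (x v) (z h)) (fun h => ps (x v) (z h))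
      (fun h => dnW V I x z f₀ f₁ a c d v h) (tt (x v)) K (G2 (x v)) u₀ (ph (x v) (z f₀)) (H2 (x v)) (H2a (x v)) νa 0 Real.pi
      (C.vert v hv) dnW_f0 (EV.V0A2 (x v) hx hxX) ?_ ?_ ?_
    · have hcr : dnCr V F I f₀ f₁ v ≤ 1 := dnCr_le_one (fun hb => b2 (hb.2.2.1 m₂ hm2F a2 (dnx_mem_fat.1 e2).2))
      have := mul_le_mul_of_nonneg_left hcr E.νa0
      linarith
    · have r := E.A2c (x v) (z m₁) hx hxX (hcc m₁ hm1F (dnx_symm a1) (dnx_symm b1)) (hZ m₁ hm1F e3 e6)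
      simp only [dnW_c a1 b1, h0, h1, if_true, if_false]
      linarith
    · have r := E.A2a (x v) (z m₂) hx hxX (C.z0 m₂ hm2F) (hZ m₂ hm2F e4 e7)
      simp only [dnW_a e7 a2 b2, h0, if_true]
      linarith
    · intro h hh q0 q1 q2
      have hhF := (dnx_mem_fat.1 hh).1
      have r := E.A2o (x v) (z h) hx hxX (C.z0 h hhF) (hZ h hhF q0 (hothne h hh))
      simp only [dnW_o (ho h hh q1 q2)]
      linarith
  by_cases c1 : AdjI V I f₁ n₁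
  · by_cases c2 : AdjI V I f₁ n₂
    · -- type A1
      have z1 := hcc n₁ m1F (dnx_symm m1a) (dnx_symm c1)
      have z2 := hcc n₂ m2F (dnx_symm m2a) (dnx_symm c2)
      have key := dnx_loc3 (fat F I v) f₀ n₁ n₂ hS0 hS1 hS2 hn10 hn20 hn (fun h => om (x v) (z h)) (fun h => ps (x v) (z h))
        (fun h => dnW V I x z f₀ f₁ a c d v h) (tt (x v)) K (G (x v)) u₀ (ph (x v) (z f₀)) (H (x v)) (H (x v)) 0 (2 * νa) Real.pi
        (C.vert v hv) dnW_f0 ?_ ?_ ?_ ?_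
      · have hmx : ¬ dnMx V F I f₀ f₁ v := by
          rintro ⟨-, ⟨h, hhF, -, hadj, hvh, hna⟩, -⟩
          rcases (htwo h).1 ⟨hhF, hadj, hvh⟩ with rfl | rfl
          · exact hna c1
          · exact hna c2
        have hcr : dnCr V F I f₀ f₁ v ≤ (((fat F I v).card : ℝ) - 3) * 2 := by
          by_cases hb : dnBg V F I f₀ f₁ v
          · have h4 : (4 : ℝ) ≤ ((fat F I v).card : ℝ) := by exact_mod_cast hb.2.2.2
            unfold dnCr
            rw [if_neg hmx, if_pos hb]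
            linarith
          · rw [dnCr_zero hb hmx]
            linarith
        have := mul_le_mul_of_nonneg_left hcr E.νa0
        linarith
      · have r := EV.V0A1 (x v) hx hxX
        linarith
      · have r := E.A1c (x v) (z n₁) hx hxX z1 (hZ n₁ m1F hn10 hn11)
        simp only [dnW_c m1a c1, h0, h1, if_true, if_false]
        linarith
      · have r := E.A1c (x v) (z n₂) hx hxX z2 (hZ n₂ m2F hn20 hn21)
        simp only [dnW_c m2a c2, h0, h1, if_true, if_false]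
        linarith
      · intro h hh q0 q1 q2
        have hhF := (dnx_mem_fat.1 hh).1
        have r := E.A1o (x v) (z h) hx hxX (C.z0 h hhF) (hZ h hhF q0 (hothne h hh))
          (dnx_restr C hv hS0 hS1 hS2 hh hn10 hn20 hn q0 q1 q2 z1 z2)
        simp only [dnW_o (hoth h hh q1 q2)]
        linarith
    · exact mixed n₁ n₂ hS1 hS2 hn10 hn20 hn hn11 hn21 m1a m2a c1 c2 hoth
  · by_cases c2 : AdjI V I f₁ n₂
    · exact mixed n₂ n₁ hS2 hS1 hn20 hn10 hn.symm hn21 hn11 m2a m1a c2 c1 (fun h hh q1 q2 => hoth h hh q2 q1)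
    · -- type A3
      have key := dnx_loc3 (fat F I v) f₀ n₁ n₂ hS0 hS1 hS2 hn10 hn20 hn (fun h => om (x v) (z h)) (fun h => ps (x v) (z h))
        (fun h => dnW V I x z f₀ f₁ a c d v h) (tt (x v)) K (G3 (x v)) u₀ (ph (x v) (z f₀)) (H3 (x v)) (H3 (x v)) 0 0 Real.pi
        (C.vert v hv) dnW_f0 ?_ ?_ ?_ ?_
      · have hmx : ¬ dnMx V F I f₀ f₁ v := by
          rintro ⟨-, -, ⟨h, hhF, hadj, hvh, hor⟩⟩
          rcases hor with rfl | hor
          · exact h1 hvh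
          · rcases (htwo h).1 ⟨hhF, hadj, hvh⟩ with rfl | rfl
            · exact c1 hor
            · exact c2 hor
        have hb : ¬ dnBg V F I f₀ f₁ v := fun hb => c1 (hb.2.2.1 n₁ m1F m1a m1v)
        rw [dnCr_zero hb hmx]
        linarith
      · have r := EV.V0A3 (x v) hx hxX
        linarith
      · have r := E.A3a (x v) (z n₁) hx hxX (C.z0 n₁ m1F) (hZ n₁ m1F hn10 hn11)
        simp only [dnW_a hn11 m1a c1, h0, if_true]
        linarith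
      · have r := E.A3a (x v) (z n₂) hx hxX (C.z0 n₂ m2F) (hZ n₂ m2F hn20 hn21)
        simp only [dnW_a hn21 m2a c2, h0, if_true]
        linarith
      · intro h hh q0 q1 q2
        have hhF := (dnx_mem_fat.1 hh).1
        have r := E.A3o (x v) (z h) hx hxX (C.z0 h hhF) (hZ h hhF q0 (hothne h hh))
        simp only [dnW_o (hoth h hh q1 q2)]
        linarith

/-- weight of a face at a vertex of `f₁` off `f₀`, for a face which is not adjacent to `f₁` -/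
private lemma dnx_W_le (C : Cfg V F I x z)
    (E : RowsE X Z zc xm K νa g a c d G H G2 H2 H2a G3 H3 GB HB HC0 HC1 GC (z f₀))
    (hZ : ∀ h ∈ F, h ≠ f₀ → h ≠ f₁ → z h ≤ Z)
    (hv : v ∈ V) (h0 : ¬ I v f₀) (hh : h ∈ fat F I v) (hne : h ≠ f₁) (hna : ¬ AdjI V I f₁ h) :
    dnW V I x z f₀ f₁ a c d v h ≤ a (z h) * ph (x v) (z h) := by
  obtain ⟨hhF, hvh⟩ := dnx_mem_fat.1 hh
  have hn0 : h ≠ f₀ := by rintro rfl; exact h0 hvh
  by_cases ha : AdjI V I f₀ h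
  · rw [dnW_a hne ha hna, if_neg h0, sub_zero]
  · rw [dnW_o ha]
    exact mul_nonneg (E.a0 _ (C.z0 h hhF) (hZ h hhF hn0 hne)) (dnx_ph_nonneg (C.x0 v hv) (C.z0 h hhF))

private lemma dnx_typeB (C : Cfg V F I x z) (hf₁ : f₁ ∈ F)
    (hX : ∀ v ∈ V, x v ≤ X) (hZ : ∀ h ∈ F, h ≠ f₀ → h ≠ f₁ → z h ≤ Z)
    (hcc : ∀ h ∈ F, AdjI V I h f₀ → AdjI V I h f₁ → zc ≤ z h)
    (E : RowsE X Z zc xm K νa g a c d G H G2 H2 H2a G3 H3 GB HB HC0 HC1 GC (z f₀))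
    (EV : RowsEV X xm K νa (z f₀) (z f₁) u₀ u₁ Y₀ Y₁ κ xs G H G2 H2 H2a G3 H3 GB HB HC0 HC1 GC)
    (EN : RowsN X Z zc xm K νa νb (z f₀) (z f₁) u₀ u₁ Y₀ Y₁ κ xs a c d GB GB2 HB2 K2 HCa HCb)
    (hv : v ∈ V) (h0 : ¬ I v f₀) (h1 : I v f₁) :
    4 * K * ∑ h ∈ fat F I v, om (x v) (z h) + u₁ * ph (x v) (z f₁) +
      ∑ h ∈ fat F I v, dnW V I x z f₀ f₁ a c d v h + νb * dnCr V F I f₁ f₀ v ≤
      ((fat F I v).card : ℝ) * tt (x v) := by
  obtain ⟨n₁, n₂, hn, htwo⟩ := C.two v hv f₁ hf₁ h1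
  obtain ⟨m1F, m1a, m1v⟩ := (htwo n₁).2 (Or.inl rfl)
  obtain ⟨m2F, m2a, m2v⟩ := (htwo n₂).2 (Or.inr rfl)
  have hx := C.x0 v hv
  have hxX := hX v hv
  have hn11 : n₁ ≠ f₁ := m1a.1.symm
  have hn21 : n₂ ≠ f₁ := m2a.1.symm
  have hn10 : n₁ ≠ f₀ := by rintro rfl; exact h0 m1v
  have hn20 : n₂ ≠ f₀ := by rintro rfl; exact h0 m2v
  have hS0 : f₁ ∈ fat F I v := dnx_mem_fat.2 ⟨hf₁, h1⟩
  have hS1 : n₁ ∈ fat F I v := dnx_mem_fat.2 ⟨m1F, m1v⟩
  have hS2 : n₂ ∈ fat F I v := dnx_mem_fat.2 ⟨m2F, m2v⟩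
  have hdeg : (3 : ℝ) ≤ ((fat F I v).card : ℝ) := by exact_mod_cast C.deg v hv
  have hoth : ∀ h ∈ fat F I v, h ≠ n₁ → h ≠ n₂ → ¬ AdjI V I f₁ h := by
    intro h hh hh1 hh2 hadj
    obtain ⟨hhF, hvh⟩ := dnx_mem_fat.1 hh
    rcases (htwo h).1 ⟨hhF, hadj, hvh⟩ with h | h
    · exact hh1 h
    · exact hh2 h
  have hothne : ∀ h ∈ fat F I v, h ≠ f₀ := by
    intro h hh hh1
    exact h0 (hh1 ▸ (dnx_mem_fat.1 hh).2)
  have mixed : ∀ m₁ m₂ : β, m₁ ∈ fat F I v → m₂ ∈ fat F I v → m₁ ≠ f₁ → m₂ ≠ f₁ → m₁ ≠ m₂ → m₁ ≠ f₀ → m₂ ≠ f₀ →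
      AdjI V I f₁ m₁ → AdjI V I f₁ m₂ → AdjI V I f₀ m₁ → ¬ AdjI V I f₀ m₂ →
      (∀ h ∈ fat F I v, h ≠ m₁ → h ≠ m₂ → ¬ AdjI V I f₁ h) →
      4 * K * ∑ h ∈ fat F I v, om (x v) (z h) + u₁ * ph (x v) (z f₁) +
        ∑ h ∈ fat F I v, dnW V I x z f₀ f₁ a c d v h + νb * dnCr V F I f₁ f₀ v ≤
        ((fat F I v).card : ℝ) * tt (x v) := by
    intro m₁ m₂ e1 e2 e3 e4 e5 e6 e7 a1 a2 b1 b2 ho
    have hm1F := (dnx_mem_fat.1 e1).1
    have hm2F := (dnx_mem_fat.1 e2).1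
    have key := dnx_loc3 (fat F I v) f₁ m₁ m₂ hS0 e1 e2 e3 e4 e5 (fun h => om (x v) (z h)) (fun h => ps (x v) (z h))
      (fun h => dnW V I x z f₀ f₁ a c d v h) (tt (x v)) K (GB2 (x v)) u₁ (ph (x v) (z f₁)) (HB2 (x v)) (K2 (x v)) νb 0 Real.pi
      (C.vert v hv) dnW_f1 (EN.V1B2 (x v) hx hxX) ?_ ?_ ?_
    · have hcr : dnCr V F I f₁ f₀ v ≤ 1 := dnCr_le_one (fun hb => b2 (hb.2.2.1 m₂ hm2F a2 (dnx_mem_fat.1 e2).2))
      have := mul_le_mul_of_nonneg_left hcr EN.νb0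
      linarith
    · have r := EN.B2c (x v) (z m₁) hx hxX (hcc m₁ hm1F (dnx_symm b1) (dnx_symm a1)) (hZ m₁ hm1F e6 e3)
      simp only [dnW_c b1 a1, h0, h1, if_true, if_false]
      linarith
    · have r := EN.B2b (x v) (z m₂) hx hxX (C.z0 m₂ hm2F) (hZ m₂ hm2F e7 e4)
      simp only [dnW_o b2]
      linarith
    · intro h hh q0 q1 q2
      have hhF := (dnx_mem_fat.1 hh).1
      have r := EN.B2o (x v) (z h) hx hxX (C.z0 h hhF) (hZ h hhF (hothne h hh) q0)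
      have w := dnx_W_le C E hZ hv h0 hh q0 (ho h hh q1 q2)
      linarith
  by_cases c1 : AdjI V I f₀ n₁
  · by_cases c2 : AdjI V I f₀ n₂
    · -- type B1
      have z1 := hcc n₁ m1F (dnx_symm c1) (dnx_symm m1a)
      have z2 := hcc n₂ m2F (dnx_symm c2) (dnx_symm m2a)
      have key := dnx_loc3 (fat F I v) f₁ n₁ n₂ hS0 hS1 hS2 hn11 hn21 hn (fun h => om (x v) (z h)) (fun h => ps (x v) (z h))
        (fun h => dnW V I x z f₀ f₁ a c d v h) (tt (x v)) K (GB (x v)) u₁ (ph (x v) (z f₁)) (HB (x v)) (HB (x v)) 0 (2 * νb) Real.pi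
        (C.vert v hv) dnW_f1 ?_ ?_ ?_ ?_
      · have hmx : ¬ dnMx V F I f₁ f₀ v := by
          rintro ⟨-, ⟨h, hhF, -, hadj, hvh, hna⟩, -⟩
          rcases (htwo h).1 ⟨hhF, hadj, hvh⟩ with rfl | rfl
          · exact hna c1
          · exact hna c2
        have hcr : dnCr V F I f₁ f₀ v ≤ (((fat F I v).card : ℝ) - 3) * 2 := by
          by_cases hb : dnBg V F I f₁ f₀ v
          · have h4 : (4 : ℝ) ≤ ((fat F I v).card : ℝ) := by exact_mod_cast hb.2.2.2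
            unfold dnCr
            rw [if_neg hmx, if_pos hb]
            linarith
          · rw [dnCr_zero hb hmx]
            linarith
        have := mul_le_mul_of_nonneg_left hcr EN.νb0
        linarith
      · have r := EV.V1B1 (x v) hx hxX
        linarith
      · have r := E.B1c (x v) (z n₁) hx hxX z1 (hZ n₁ m1F hn10 hn11)
        simp only [dnW_c c1 m1a, h0, h1, if_true, if_false]
        linarith
      · have r := E.B1c (x v) (z n₂) hx hxX z2 (hZ n₂ m2F hn20 hn21)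
        simp only [dnW_c c2 m2a, h0, h1, if_true, if_false]
        linarith
      · intro h hh q0 q1 q2
        have hhF := (dnx_mem_fat.1 hh).1
        have r := EN.B1o (x v) (z h) hx hxX (C.z0 h hhF) (hZ h hhF (hothne h hh) q0)
          (dnx_restr C hv hS0 hS1 hS2 hh hn11 hn21 hn q0 q1 q2 z1 z2)
        have w := dnx_W_le C E hZ hv h0 hh q0 (hoth h hh q1 q2)
        linarith
    · exact mixed n₁ n₂ hS1 hS2 hn11 hn21 hn hn10 hn20 m1a m2a c1 c2 hoth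
  · by_cases c2 : AdjI V I f₀ n₂
    · exact mixed n₂ n₁ hS2 hS1 hn21 hn11 hn.symm hn20 hn10 m2a m1a c2 c1 (fun h hh q1 q2 => hoth h hh q2 q1)
    · -- type B3
      have key := dnx_loc3 (fat F I v) f₁ n₁ n₂ hS0 hS1 hS2 hn11 hn21 hn (fun h => om (x v) (z h)) (fun h => ps (x v) (z h))
        (fun h => dnW V I x z f₀ f₁ a c d v h) (tt (x v)) K (GB2 (x v)) u₁ (ph (x v) (z f₁)) (K2 (x v)) (K2 (x v)) 0 0 Real.pi
        (C.vert v hv) dnW_f1 ?_ ?_ ?_ ?_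
      · have hmx : ¬ dnMx V F I f₁ f₀ v := by
          rintro ⟨-, -, ⟨h, hhF, hadj, hvh, hor⟩⟩
          rcases hor with rfl | hor
          · exact h0 hvh
          · rcases (htwo h).1 ⟨hhF, hadj, hvh⟩ with rfl | rfl
            · exact c1 hor
            · exact c2 hor
        have hb : ¬ dnBg V F I f₁ f₀ v := fun hb => c1 (hb.2.2.1 n₁ m1F m1a m1v)
        rw [dnCr_zero hb hmx]
        linarith
      · have r := EN.V1B3 (x v) hx hxX
        linarith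
      · have r := EN.B2b (x v) (z n₁) hx hxX (C.z0 n₁ m1F) (hZ n₁ m1F hn10 hn11)
        simp only [dnW_o c1]
        linarith
      · have r := EN.B2b (x v) (z n₂) hx hxX (C.z0 n₂ m2F) (hZ n₂ m2F hn20 hn21)
        simp only [dnW_o c2]
        linarith
      · intro h hh q0 q1 q2
        have hhF := (dnx_mem_fat.1 hh).1
        have r := EN.B2o (x v) (z h) hx hxX (C.z0 h hhF) (hZ h hhF (hothne h hh) q0)
        have w := dnx_W_le C E hZ hv h0 hh q0 (hoth h hh q1 q2)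
        linarith

/-- vertices of `f₁` off `f₀` when the `f₁` side is exact -/
private lemma dnx_typeBX (C : Cfg V F I x z) (hf₁ : f₁ ∈ F)
    (hX : ∀ v ∈ V, x v ≤ X) (hZ : ∀ h ∈ F, h ≠ f₀ → h ≠ f₁ → z h ≤ Z)
    (hcc : ∀ h ∈ F, AdjI V I h f₀ → AdjI V I h f₁ → zc ≤ z h)
    (E : RowsE X Z zc xm K νa g a c d G H G2 H2 H2a G3 H3 GB HB HC0 HC1 GC (z f₀))
    (EV : RowsEV X xm K νa (z f₀) (z f₁) u₀ u₁ Y₀ Y₁ κ xs G H G2 H2 H2a G3 H3 GB HB HC0 HC1 GC)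
    (hex : ExactAt V F I f₁ f₀)
    (hv : v ∈ V) (h0 : ¬ I v f₀) (h1 : I v f₁) :
    4 * K * ∑ h ∈ fat F I v, om (x v) (z h) + u₁ * ph (x v) (z f₁) +
      ∑ h ∈ fat F I v, dnW V I x z f₀ f₁ a c d v h ≤ ((fat F I v).card : ℝ) * tt (x v) := by
  obtain ⟨n₁, n₂, hn, htwo⟩ := C.two v hv f₁ hf₁ h1
  obtain ⟨m1F, m1a, m1v⟩ := (htwo n₁).2 (Or.inl rfl)
  obtain ⟨m2F, m2a, m2v⟩ := (htwo n₂).2 (Or.inr rfl)
  have hx := C.x0 v hv
  have hxX := hX v hv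
  have hn11 : n₁ ≠ f₁ := m1a.1.symm
  have hn21 : n₂ ≠ f₁ := m2a.1.symm
  have hn10 : n₁ ≠ f₀ := by rintro rfl; exact h0 m1v
  have hn20 : n₂ ≠ f₀ := by rintro rfl; exact h0 m2v
  have c1 : AdjI V I f₀ n₁ := hex.1 n₁ m1F hn10 m1a
  have c2 : AdjI V I f₀ n₂ := hex.1 n₂ m2F hn20 m2a
  have hS0 : f₁ ∈ fat F I v := dnx_mem_fat.2 ⟨hf₁, h1⟩
  have hS1 : n₁ ∈ fat F I v := dnx_mem_fat.2 ⟨m1F, m1v⟩
  have hS2 : n₂ ∈ fat F I v := dnx_mem_fat.2 ⟨m2F, m2v⟩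
  have hcard : (fat F I v).card = 3 := hex.2 v hv h1 h0
  have z1 := hcc n₁ m1F (dnx_symm c1) (dnx_symm m1a)
  have z2 := hcc n₂ m2F (dnx_symm c2) (dnx_symm m2a)
  have key := dnx_loc3 (fat F I v) f₁ n₁ n₂ hS0 hS1 hS2 hn11 hn21 hn (fun h => om (x v) (z h)) (fun h => ps (x v) (z h))
    (fun h => dnW V I x z f₀ f₁ a c d v h) (tt (x v)) K (GB (x v)) u₁ (ph (x v) (z f₁)) (HB (x v)) (HB (x v)) 0 0 Real.pi
    (C.vert v hv) dnW_f1 ?_ ?_ ?_ ?_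
  · linarith
  · have r := EV.V1B1 (x v) hx hxX
    linarith
  · have r := E.B1c (x v) (z n₁) hx hxX z1 (hZ n₁ m1F hn10 hn11)
    simp only [dnW_c c1 m1a, h0, h1, if_true, if_false]
    linarith
  · have r := E.B1c (x v) (z n₂) hx hxX z2 (hZ n₂ m2F hn20 hn21)
    simp only [dnW_c c2 m2a, h0, h1, if_true, if_false]
    linarith
  · intro h hh q0 q1 q2
    exfalso
    have hc := dnx_card3 (fat F I v) f₁ n₁ n₂ hS0 hS1 hS2 hn11 hn21 hn
    rw [hcard] at hc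
    have hmem : h ∈ (((fat F I v).erase f₁).erase n₁).erase n₂ := by
      simp only [Finset.mem_erase]; exact ⟨q2, q1, q0, hh⟩
    have hpos : 0 < ((((fat F I v).erase f₁).erase n₁).erase n₂).card := Finset.card_pos.2 ⟨h, hmem⟩
    have hpos' : (0 : ℝ) < (((((fat F I v).erase f₁).erase n₁).erase n₂).card : ℝ) := by exact_mod_cast hpos
    push_cast at hc
    linarith

/-- common vertices with a common neighbour -/
private lemma dnx_typeCc (C : Cfg V F I x z) (hf₀ : f₀ ∈ F) (hf₁ : f₁ ∈ F) (hadj : AdjI V I f₀ f₁)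
    (hX : ∀ v ∈ V, x v ≤ X) (hZ : ∀ h ∈ F, h ≠ f₀ → h ≠ f₁ → z h ≤ Z)
    (hxm : ∀ v ∈ V, I v f₀ → I v f₁ → xm ≤ x v)
    (hcc : ∀ h ∈ F, AdjI V I h f₀ → AdjI V I h f₁ → zc ≤ z h)
    (E : RowsE X Z zc xm K νa g a c d G H G2 H2 H2a G3 H3 GB HB HC0 HC1 GC (z f₀))
    (EV : RowsEV X xm K νa (z f₀) (z f₁) u₀ u₁ Y₀ Y₁ κ xs G H G2 H2 H2a G3 H3 GB HB HC0 HC1 GC)
    (hv : v ∈ V) (h0 : I v f₀) (h1 : I v f₁) {kap : ℝ} (hkap : kap = 0 ∨ (kap = κ ∧ x v ≤ xs))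
    {n : β} (hnF : n ∈ F) (hnv : I v n) (hn0 : AdjI V I f₀ n) (hn1 : AdjI V I f₁ n) :
    4 * K * ∑ h ∈ fat F I v, om (x v) (z h) + u₀ * ph (x v) (z f₀) + u₁ * ph (x v) (z f₁) +
      ∑ h ∈ fat F I v, dnW V I x z f₀ f₁ a c d v h + (-(Y₀ + Y₁) + 2 * kap) ≤
      ((fat F I v).card : ℝ) * tt (x v) := by
  have hx := C.x0 v hv
  have hxX := hX v hv
  have hm := hxm v hv h0 h1
  have hS0 : f₀ ∈ fat F I v := dnx_mem_fat.2 ⟨hf₀, h0⟩
  have hS1 : f₁ ∈ fat F I v := dnx_mem_fat.2 ⟨hf₁, h1⟩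
  have hS2 : n ∈ fat F I v := dnx_mem_fat.2 ⟨hnF, hnv⟩
  have hcard : (fat F I v).card = 3 := C.link v hv f₀ hf₀ f₁ hf₁ n hnF h0 h1 hnv hadj hn1 hn0
  have hne1 : f₁ ≠ f₀ := hadj.1.symm
  have hne2 : n ≠ f₀ := hn0.1.symm
  have hne3 : f₁ ≠ n := hn1.1
  have hT : (((fat F I v).erase f₀).erase f₁).erase n = ∅ := by
    have hc := dnx_card3 (fat F I v) f₀ f₁ n hS0 hS1 hS2 hne1 hne2 hne3
    rw [hcard] at hc
    push_cast at hc
    have : ((((fat F I v).erase f₀).erase f₁).erase n).card = 0 := by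
      have h' : (((((fat F I v).erase f₀).erase f₁).erase n).card : ℝ) = 0 := by linarith
      exact_mod_cast h'
    exact Finset.card_eq_zero.1 this
  have hs : ∀ w : β → ℝ, ∑ h ∈ fat F I v, w h = w f₀ + w f₁ + w n := by
    intro w
    rw [dnx_sum3 (fat F I v) f₀ f₁ n hS0 hS1 hS2 hne1 hne2 hne3 w, hT, Finset.sum_empty, add_zero]
  have hps := C.vert v hv
  rw [hs] at hps
  rw [hs, hs, hcard, dnW_f0, dnW_f1, dnW_c hn0 hn1, if_pos h0, if_pos h0, if_pos h1]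
  have rc := E.Cc (x v) (z n) hm hxX (hcc n hnF (dnx_symm hn0) (dnx_symm hn1)) (hZ n hnF hne2 hne3.symm)
  have hG : GC (x v) * ps (x v) (z n) = GC (x v) * Real.pi - GC (x v) * ps (x v) (z f₀) - GC (x v) * ps (x v) (z f₁) := by
    rw [← hps]; ring
  push_cast
  rcases hkap with rfl | ⟨rfl, hxs⟩
  · have r0 := EV.VC0 (x v) hm hxX
    have r1 := EV.VC1 (x v) hm hxX
    linarith
  · have r0 := EV.VC0k (x v) hm hxX hxs
    have r1 := EV.VC1k (x v) hm hxX hxs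
    linarith

/-- common vertices with two different further neighbours -/
private lemma dnx_typeCx (C : Cfg V F I x z) (hf₀ : f₀ ∈ F) (hf₁ : f₁ ∈ F) (hadj : AdjI V I f₀ f₁)
    (hX : ∀ v ∈ V, x v ≤ X) (hZ : ∀ h ∈ F, h ≠ f₀ → h ≠ f₁ → z h ≤ Z)
    (hxm : ∀ v ∈ V, I v f₀ → I v f₁ → xm ≤ x v)
    (E : RowsE X Z zc xm K νa g a c d G H G2 H2 H2a G3 H3 GB HB HC0 HC1 GC (z f₀))
    (EN : RowsN X Z zc xm K νa νb (z f₀) (z f₁) u₀ u₁ Y₀ Y₁ κ xs a c d GB GB2 HB2 K2 HCa HCb)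
    (hv : v ∈ V) (h0 : I v f₀) (h1 : I v f₁) {kap : ℝ} (hkap : kap = 0 ∨ (kap = κ ∧ x v ≤ xs))
    {n n' : β} (hnF : n ∈ F) (hnv : I v n) (hn0 : AdjI V I f₀ n) (hn1 : ¬ AdjI V I f₁ n) (hne : n ≠ f₁)
    (hnF' : n' ∈ F) (hnv' : I v n') (hn0' : ¬ AdjI V I f₀ n') (hn1' : AdjI V I f₁ n') (hne' : n' ≠ f₀)
    (ho : ∀ h ∈ fat F I v, h ≠ f₁ → h ≠ n → ¬ AdjI V I f₀ h) :
    4 * K * ∑ h ∈ fat F I v, om (x v) (z h) + u₀ * ph (x v) (z f₀) + u₁ * ph (x v) (z f₁) +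
      ∑ h ∈ fat F I v, dnW V I x z f₀ f₁ a c d v h + (-(Y₀ + Y₁) + 2 * kap) + νa + νb ≤
      ((fat F I v).card : ℝ) * tt (x v) := by
  have hx := C.x0 v hv
  have hxX := hX v hv
  have hm := hxm v hv h0 h1
  have hS0 : f₀ ∈ fat F I v := dnx_mem_fat.2 ⟨hf₀, h0⟩
  have hS1 : f₁ ∈ fat F I v := dnx_mem_fat.2 ⟨hf₁, h1⟩
  have hS2 : n ∈ fat F I v := dnx_mem_fat.2 ⟨hnF, hnv⟩
  have hS3 : n' ∈ fat F I v := dnx_mem_fat.2 ⟨hnF', hnv'⟩
  have hne1 : f₁ ≠ f₀ := hadj.1.symm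
  have hne2 : n ≠ f₀ := hn0.1.symm
  have hnn : n' ≠ n := by rintro rfl; exact hn0' hn0
  have hne4 : n' ≠ f₁ := hn1'.1.symm
  set T := (((fat F I v).erase f₀).erase f₁).erase n with hT
  have hT3 : n' ∈ T := by
    simp only [hT, Finset.mem_erase]; exact ⟨hnn, hne4, hne', hS3⟩
  have hs : ∀ w : β → ℝ, ∑ h ∈ fat F I v, w h = w f₀ + w f₁ + w n + (w n' + ∑ h ∈ T.erase n', w h) := by
    intro w
    rw [dnx_sum3 (fat F I v) f₀ f₁ n hS0 hS1 hS2 hne1 hne2 (Ne.symm hne) w, Finset.add_sum_erase T w hT3]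
  have hcard : ((fat F I v).card : ℝ) = 4 + ((T.erase n').card : ℝ) := by
    have := hs (fun _ => 1)
    simp only [Finset.sum_const, nsmul_eq_mul, mul_one] at this
    rw [this]; ring
  have hrest : ∀ h ∈ T.erase n', h ≠ f₀ ∧ h ≠ f₁ ∧ h ≠ n ∧ h ∈ fat F I v := by
    intro h hh
    simp only [hT, Finset.mem_erase] at hh
    exact ⟨hh.2.2.2.1, hh.2.2.1, hh.2.1, hh.2.2.2.2⟩
  have hWrest : ∑ h ∈ T.erase n', dnW V I x z f₀ f₁ a c d v h = 0 := by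
    refine Finset.sum_eq_zero fun h hh => ?_
    obtain ⟨q0, q1, q2, q3⟩ := hrest h hh
    exact dnW_o (ho h q3 q1 q2)
  have hOrest : ∑ h ∈ T.erase n', 4 * K * om (x v) (z h) ≤ ((T.erase n').card : ℝ) * tt (x v) := by
    rw [← nsmul_eq_mul]
    refine Finset.sum_le_card_nsmul _ _ _ fun h hh => ?_
    obtain ⟨q0, q1, q2, q3⟩ := hrest h hh
    have hhF := (dnx_mem_fat.1 q3).1
    have hz := C.z0 h hhF
    have hzZ := hZ h hhF q0 q1
    have e1 := dnx_om_le hx hz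
    have e2 := dnx_tt_ge hx (C.x1 v hv)
    have e3 : 2 * K * z h ≤ 1 := by
      have := mul_le_mul_of_nonneg_left hzZ (mul_nonneg zero_le_two E.K0)
      exact this.trans EN.KZ
    calc 4 * K * om (x v) (z h) ≤ 4 * K * (x v * z h) := by
          have := E.K0
          gcongr
      _ = 2 * x v * (2 * K * z h) := by ring
      _ ≤ 2 * x v * 1 := by gcongr
      _ ≤ tt (x v) := by linarith
  rw [← Finset.mul_sum] at hOrest
  rw [hs (fun h => om (x v) (z h)), hs (fun h => dnW V I x z f₀ f₁ a c d v h), hcard, hWrest, dnW_f0, dnW_f1,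
    dnW_a hne hn0 hn1, dnW_o hn0', if_pos h0]
  have ra := EN.Cxa (x v) (z n) hm hxX (C.z0 n hnF) (hZ n hnF hne2 hne)
  have rb := EN.Cxb (x v) (z n') hm hxX (C.z0 n' hnF') (hZ n' hnF' hne' hne4)
  rcases hkap with rfl | ⟨rfl, hxs⟩
  · have r0 := EN.VX0 (x v) hm hxX
    have r1 := EN.VX1 (x v) hm hxX
    linarith
  · have r0 := EN.VX0k (x v) hm hxX hxs
    have r1 := EN.VX1k (x v) hm hxX hxs
    linarith

/-- the further neighbour of `f` at a common vertex of `f` and `f'` -/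
private lemma dnx_other (C : Cfg V F I x z) (hv : v ∈ V) {f f' : β} (hf : f ∈ F) (hf' : f' ∈ F)
    (hvf : I v f) (hvf' : I v f') (hadj : AdjI V I f f') :
    ∃ n ∈ F, I v n ∧ AdjI V I f n ∧ n ≠ f' ∧ ∀ h ∈ fat F I v, h ≠ f' → h ≠ n → ¬ AdjI V I f h := by
  obtain ⟨n₁, n₂, hn, htwo⟩ := C.two v hv f hf hvf
  obtain ⟨m1F, m1a, m1v⟩ := (htwo n₁).2 (Or.inl rfl)
  obtain ⟨m2F, m2a, m2v⟩ := (htwo n₂).2 (Or.inr rfl)
  rcases (htwo f').1 ⟨hf', hadj, hvf'⟩ with rfl | rfl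
  · refine ⟨n₂, m2F, m2v, m2a, hn.symm, ?_⟩
    intro h hh h1 h2 ha
    obtain ⟨hhF, hvh⟩ := dnx_mem_fat.1 hh
    rcases (htwo h).1 ⟨hhF, ha, hvh⟩ with e | e
    · exact h1 e
    · exact h2 e
  · refine ⟨n₁, m1F, m1v, m1a, hn, ?_⟩
    intro h hh h1 h2 ha
    obtain ⟨hhF, hvh⟩ := dnx_mem_fat.1 hh
    rcases (htwo h).1 ⟨hhF, ha, hvh⟩ with e | e
    · exact h2 e
    · exact h1 e

/-- the bonus -/
private lemma dnx_kap (κ xs : ℝ) (hκ : κ = 0 ∨ ∃ v ∈ V, I v f₀ ∧ I v f₁ ∧ x v ≤ xs) :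
    ∃ kap : α → ℝ, (∀ v, kap v = 0 ∨ (kap v = κ ∧ x v ≤ xs)) ∧
      ∑ v ∈ V.filter (fun v => I v f₀ ∧ I v f₁), kap v = κ := by
  rcases hκ with rfl | ⟨v, hv, h0, h1, hxs⟩
  · exact ⟨fun _ => 0, fun _ => Or.inl rfl, by simp⟩
  · refine ⟨fun w => if w = v then κ else 0, ?_, ?_⟩
    · intro w
      by_cases h : w = v
      · subst h; right; simp [hxs]
      · left; simp [h]
    · rw [Finset.sum_ite_eq' (V.filter (fun v => I v f₀ ∧ I v f₁)) v (fun _ => κ),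
        if_pos (Finset.mem_filter.2 ⟨hv, h0, h1⟩)]

end types

end basics

theorem pf_DN (hC : Stm_CNT) : Stm_DN := by
  intro α β V F I x z C X Z zc xm K νa νb u₀ u₁ Y₀ Y₁ κ xs g a c d G H G2 H2 H2a G3 H3 GB HB GB2 HB2 K2
    HC0 HC1 GC HCa HCb f₀ f₁ hf₀ hf₁ hadj hX hZ hzc hxm0 hxm hcc E EV EN hκ hne₀ hne₁
  obtain ⟨kap, hk1, hk2⟩ := dnx_kap (V := V) (I := I) (x := x) (f₀ := f₀) (f₁ := f₁) κ xs hκ
  refine dnx_global (a := a) (c := c) (d := d) C K νa νb u₀ u₁ (Y₀ + Y₁) κ kap hf₀ hf₁ hadj hk2 ?_ ?_ ?_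
  · have := mul_le_mul_of_nonneg_left (dnx_credit hC C hf₀ hf₁ hadj hne₀) E.νa0
    linarith
  · have := mul_le_mul_of_nonneg_left (dnx_credit hC C hf₁ hf₀ (dnx_symm hadj) hne₁) EN.νb0
    linarith
  · intro v hv
    by_cases h0 : I v f₀
    · by_cases h1 : I v f₁
      · rw [if_pos h0, if_pos h1, if_pos (show I v f₀ ∧ I v f₁ from ⟨h0, h1⟩)]
        obtain ⟨n, hnF, hnv, hn0, hne, ho⟩ := dnx_other C hv hf₀ hf₁ h0 h1 hadj
        obtain ⟨n', hnF', hnv', hn1', hne', ho'⟩ := dnx_other C hv hf₁ hf₀ h1 h0 (dnx_symm hadj)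
        have hb0 : ¬ dnBg V F I f₀ f₁ v := fun hb => hb.2.1 h1
        have hb1 : ¬ dnBg V F I f₁ f₀ v := fun hb => hb.2.1 h0
        by_cases hnn : n = n'
        · subst hnn
          have key := dnx_typeCc C hf₀ hf₁ hadj hX hZ hxm hcc E EV hv h0 h1 (hk1 v) hnF hnv hn0 hn1'
          have m0 : ¬ dnMx V F I f₀ f₁ v := by
            rintro ⟨-, ⟨h, hhF, hh1, ha, hvh, hna⟩, -⟩
            by_cases e : h = n
            · subst e; exact hna hn1'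
            · exact ho h (dnx_mem_fat.2 ⟨hhF, hvh⟩) hh1 e ha
          have m1 : ¬ dnMx V F I f₁ f₀ v := by
            rintro ⟨-, ⟨h, hhF, hh1, ha, hvh, hna⟩, -⟩
            by_cases e : h = n
            · subst e; exact hna hn0
            · exact ho' h (dnx_mem_fat.2 ⟨hhF, hvh⟩) hh1 e ha
          rw [dnCr_zero hb0 m0, dnCr_zero hb1 m1]
          linarith
        · have hn1 : ¬ AdjI V I f₁ n := by
            intro ha
            exact ho' n (dnx_mem_fat.2 ⟨hnF, hnv⟩) hn0.1.symm hnn ha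
          have hn0' : ¬ AdjI V I f₀ n' := by
            intro ha
            exact ho n' (dnx_mem_fat.2 ⟨hnF', hnv'⟩) hn1'.1.symm (Ne.symm hnn) ha
          have key := dnx_typeCx C hf₀ hf₁ hadj hX hZ hxm E EN hv h0 h1 (hk1 v) hnF hnv hn0 hn1 hne
            hnF' hnv' hn0' hn1' hne' ho
          have c0 := mul_le_mul_of_nonneg_left (dnCr_le_one hb0) E.νa0
          have c1 := mul_le_mul_of_nonneg_left (dnCr_le_one hb1) EN.νb0
          linarith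
      · rw [if_pos h0, if_neg h1, if_neg (fun h => h1 h.2), dnCr_off h1]
        have key := dnx_typeA C hf₀ hX hZ hcc E EV hv h0 h1
        linarith
    · by_cases h1 : I v f₁
      · rw [if_neg h0, if_pos h1, if_neg (fun h => h0 h.1), dnCr_off h0]
        have key := dnx_typeB C hf₁ hX hZ hcc E EV EN hv h0 h1
        linarith
      · rw [if_neg h0, if_neg h1, if_neg (fun h => h0 h.1), dnCr_off h0, dnCr_off h1]
        have key := dnx_typeN C hX hZ hcc E hv h0 h1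
        linarith

theorem pf_DX (hC : Stm_CNT) : Stm_DX := by
  intro α β V F I x z C X Z zc xm K νa u₀ u₁ Y₀ Y₁ κ xs g a c d G H G2 H2 H2a G3 H3 GB HB
    HC0 HC1 GC f₀ f₁ hf₀ hf₁ hadj hX hZ hzc hxm0 hxm hcc E EV hκ hne₀ hex
  obtain ⟨kap, hk1, hk2⟩ := dnx_kap (V := V) (I := I) (x := x) (f₀ := f₀) (f₁ := f₁) κ xs hκ
  have key := dnx_global (a := a) (c := c) (d := d) C K νa 0 u₀ u₁ (Y₀ + Y₁) κ kap hf₀ hf₁ hadj hk2 ?_ ?_ ?_
  · linarith
  · have := mul_le_mul_of_nonneg_left (dnx_credit hC C hf₀ hf₁ hadj hne₀) E.νa0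
    linarith
  · simp
  · intro v hv
    rw [zero_mul]
    by_cases h0 : I v f₀
    · by_cases h1 : I v f₁
      · rw [if_pos h0, if_pos h1, if_pos (show I v f₀ ∧ I v f₁ from ⟨h0, h1⟩)]
        obtain ⟨n, hnF, hnv, hn0, hne, ho⟩ := dnx_other C hv hf₀ hf₁ h0 h1 hadj
        obtain ⟨n', hnF', hnv', hn1', hne', ho'⟩ := dnx_other C hv hf₁ hf₀ h1 h0 (dnx_symm hadj)
        have hb0 : ¬ dnBg V F I f₀ f₁ v := fun hb => hb.2.1 h1
        have hnn : n = n' := by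
          by_contra hnn
          exact ho n' (dnx_mem_fat.2 ⟨hnF', hnv'⟩) hn1'.1.symm (Ne.symm hnn) (hex.1 n' hnF' hne' hn1')
        subst hnn
        have key := dnx_typeCc C hf₀ hf₁ hadj hX hZ hxm hcc E EV hv h0 h1 (hk1 v) hnF hnv hn0 hn1'
        have m0 : ¬ dnMx V F I f₀ f₁ v := by
          rintro ⟨-, ⟨h, hhF, hh1, ha, hvh, hna⟩, -⟩
          by_cases e : h = n
          · subst e; exact hna hn1'
          · exact ho h (dnx_mem_fat.2 ⟨hhF, hvh⟩) hh1 e ha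
        rw [dnCr_zero hb0 m0]
        linarith
      · rw [if_pos h0, if_neg h1, if_neg (fun h => h1 h.2)]
        have key := dnx_typeA C hf₀ hX hZ hcc E EV hv h0 h1
        linarith
    · by_cases h1 : I v f₁
      · rw [if_neg h0, if_pos h1, if_neg (fun h => h0 h.1), dnCr_off h0]
        have key := dnx_typeBX C hf₁ hX hZ hcc E EV hex hv h0 h1
        linarith
      · rw [if_neg h0, if_neg h1, if_neg (fun h => h0 h.1), dnCr_off h0]
        have key := dnx_typeN C hX hZ hcc E hv h0 h1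
        linarith

end Pool.Agent.Lib.MP_af06f6_co
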