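import Mathlib
import Pool.Agent.Lib.MP_af06f6_co.D.Stm
import Pool.Agent.Lib.MP_af06f6_co.G.Stm
import Pool.Agent.Lib.MP_af06f6_co.G.Swap

/-!
# MP_af06f6_co, discharging part, E1 and E2: a midscribed dual pair gives the abstract configuration
-/

open Set

namespace Pool.Agent.Lib.MP_af06f6_co

theorem vof_eq_star (V : Finset E3) (f : E3) :
    vof V (fun v f => inner ℝ v f = (1 : ℝ)) f = star V f := by
  classical
  ext v
  rw [mem_star]
  simp [vof]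

theorem fat_eq_star (F : Finset E3) (v : E3) :
    fat F (fun v f => inner ℝ v f = (1 : ℝ)) v = star F v := by
  classical
  ext f
  rw [mem_star']
  simp [fat]

theorem mem_fat_E3 {F : Finset E3} {v f : E3} :
    f ∈ fat F (fun v f => inner ℝ v f = (1 : ℝ)) v ↔ f ∈ F ∧ inner ℝ v f = (1 : ℝ) := by
  rw [fat_eq_star, mem_star']

theorem adjI_iff {V F : Finset E3} {f g : E3} (hf : f ∈ F) (hg : g ∈ F) :
    AdjI V (fun v f => inner ℝ v f = (1 : ℝ)) f g ↔ Adj F V f g := by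
  constructor
  · rintro ⟨hfg, v, hv, w, hw, hvw, h1, h2, h3, h4⟩
    exact ⟨hf, hg, hfg, v, hv, w, hw, hvw, h1, h2, h3, h4⟩
  · rintro ⟨-, -, hfg, v, hv, w, hw, hvw, h1, h2, h3, h4⟩
    exact ⟨hfg, v, hv, w, hw, hvw, h1, h2, h3, h4⟩

/-- if `v` is on two adjacent faces, then it is an end of an `E4` of them -/
theorem Adj.exE4_at (hA3 : Stm_A3) {V F : Finset E3} (h : DP V F) {f g v : E3} (hA : Adj F V f g)
    (hv : v ∈ V) (h1 : inner ℝ v f = (1 : ℝ)) (h2 : inner ℝ v g = (1 : ℝ)) : ∃ w, E4 V F v w f g := by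
  obtain ⟨a, b, hE⟩ := hA.exE4F
  by_cases hva : v = a
  · subst hva
    exact ⟨b, hE⟩
  by_cases hvb : v = b
  · subst hvb
    exact ⟨a, hE.symmV⟩
  exact absurd (hA3 V F h f hE.hf g hE.hg hE.hfg v hv a hE.hv b hE.hw hva hE.hvw hvb h1 h2 hE.vf hE.vg
    hE.wf hE.wg) id

/-- dual: if the face `k` contains both ends of an edge, it is one of the two faces of the edge -/
theorem E4.face_mem (hA3 : Stm_A3) {V F : Finset E3} (h : DP V F) {v w f g k : E3} (hE : E4 V F v w f g)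
    (hk : k ∈ F) (h1 : inner ℝ v k = (1 : ℝ)) (h2 : inner ℝ w k = (1 : ℝ)) : k = f ∨ k = g := by
  by_contra hcon
  push Not at hcon
  have hS := hE.swap
  refine hA3 F V h.swap v hE.hv w hE.hw hE.hvw k hk f hE.hf g hE.hg hcon.1 hE.hfg hcon.2 ?_ ?_ ?_ ?_ ?_ ?_
  · rw [real_inner_comm]; exact h1
  · rw [real_inner_comm]; exact h2
  · exact hS.vf
  · exact hS.vg
  · exact hS.wf
  · exact hS.wg

/-- the faces adjacent to `f` which contain `v` -/
theorem Flag2.adj_iff (hA3 : Stm_A3) {V F : Finset E3} (h : DP V F) {v f w₁ w₂ g₁ g₂ : E3}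
    (hF : Flag2 V F v f w₁ w₂ g₁ g₂) (g : E3) :
    (Adj F V f g ∧ inner ℝ v g = (1 : ℝ)) ↔ (g = g₁ ∨ g = g₂) := by
  constructor
  · rintro ⟨hA, h2⟩
    obtain ⟨w, hE⟩ := hA.exE4_at hA3 h hF.e₁.hv hF.e₁.vf h2
    rcases hF.only w g hE with h' | h'
    · exact Or.inl h'.2
    · exact Or.inr h'.2
  · rintro (rfl | rfl)
    · exact ⟨hF.e₁.adjF, hF.e₁.vg⟩
    · exact ⟨hF.e₂.adjF, hF.e₂.vg⟩

/-- in a set `T` of three pairwise adjacent faces at `v`: the faces adjacent to a member which contain `v`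
are in `T` -/
theorem link_aux (hA3 : Stm_A3) (hA5 : Stm_A5) {V F : Finset E3} (h : DP V F) {v f g k l : E3}
    (hfg : Adj F V f g) (hfk : Adj F V f k) (hgk : g ≠ k) (hv : v ∈ V) (hf : f ∈ F)
    (h1 : inner ℝ v f = (1 : ℝ)) (h2 : inner ℝ v g = (1 : ℝ)) (h3 : inner ℝ v k = (1 : ℝ))
    (hfl : Adj F V f l) (h4 : inner ℝ v l = (1 : ℝ)) : l = g ∨ l = k := by
  obtain ⟨w₁, w₂, g₁, g₂, hF⟩ := hA5 V F h v hv f hf h1
  have eg := (hF.adj_iff hA3 h g).1 ⟨hfg, h2⟩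
  have ek := (hF.adj_iff hA3 h k).1 ⟨hfk, h3⟩
  have el := (hF.adj_iff hA3 h l).1 ⟨hfl, h4⟩
  rcases eg with rfl | rfl <;> rcases ek with rfl | rfl
  · exact absurd rfl hgk
  · exact el
  · exact el.symm
  · exact absurd rfl hgk

theorem link_E3 (hA3 : Stm_A3) (hA5 : Stm_A5) (hA7 : Stm_A7) {V F : Finset E3} (h : DP V F)
    {v f g k : E3} (hv : v ∈ V) (hf : f ∈ F) (hg : g ∈ F) (hk : k ∈ F)
    (h1 : inner ℝ v f = (1 : ℝ)) (h2 : inner ℝ v g = (1 : ℝ)) (h3 : inner ℝ v k = (1 : ℝ))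
    (hfg : Adj F V f g) (hgk : Adj F V g k) (hfk : Adj F V f k) : (star F v).card = 3 := by
  classical
  have hfg' : f ≠ g := hfg.2.2.1
  have hgk' : g ≠ k := hgk.2.2.1
  have hfk' : f ≠ k := hfk.2.2.1
  set T : Finset E3 := {f, g, k} with hT
  have hTm : ∀ m, m ∈ T ↔ (m = f ∨ m = g ∨ m = k) := by intro m; simp [hT]
  -- claim A
  have cA : ∀ m ∈ T, ∀ l, Adj F V m l → inner ℝ v l = (1 : ℝ) → l ∈ T := by
    intro m hm l hl h4
    rw [hTm] at hm ⊢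
    rcases hm with rfl | rfl | rfl
    · rcases link_aux hA3 hA5 h hfg hfk hgk' hv hf h1 h2 h3 hl h4 with h' | h'
      · exact Or.inr (Or.inl h')
      · exact Or.inr (Or.inr h')
    · rcases link_aux hA3 hA5 h hfg.symm hgk hfk' hv hg h2 h1 h3 hl h4 with h' | h'
      · exact Or.inl h'
      · exact Or.inr (Or.inr h')
    · rcases link_aux hA3 hA5 h hfk.symm hgk.symm hfg' hv hk h3 h1 h2 hl h4 with h' | h'
      · exact Or.inl h'
      · exact Or.inr (Or.inl h')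
  set S : Set E3 := {w | ∃ m ∈ T, ∃ l, E4 V F v w m l} with hS
  -- any face of an edge `v w` with `w ∈ S` is in `T`
  have cB : ∀ w ∈ S, ∀ m ∈ F, inner ℝ v m = (1 : ℝ) → inner ℝ w m = (1 : ℝ) → m ∈ T := by
    rintro w ⟨a, ha, b, hE⟩ m hm h4 h5
    have hb : b ∈ T := cA a ha b hE.adjF hE.vg
    rcases hE.face_mem hA3 h hm h4 h5 with rfl | rfl
    · exact ha
    · exact hb
  have hne : ∃ w, Adj V F v w ∧ w ∈ S := by
    obtain ⟨w₁, w₂, g₁, g₂, hF⟩ := hA5 V F h v hv f hf h1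
    exact ⟨w₁, hF.e₁.adjV, f, (hTm f).2 (Or.inl rfl), g₁, hF.e₁⟩
  have hall : ∀ w, Adj V F v w → w ∈ S := by
    intro w0 hw0
    by_contra hcon
    obtain ⟨m, hm, h4, w, w', hw, hw', h5, h6, h7, h8⟩ := hA7 F V h.swap v hv S hne ⟨w0, hw0, hcon⟩
    rw [real_inner_comm] at h4 h5 h6
    have hmT : m ∈ T := cB w h7 m hm h4 h5
    apply h8
    obtain ⟨p, q, hE⟩ := hw'.exE4V
    rcases hE.face_mem hA3 h hm h4 h6 with rfl | rfl
    · exact ⟨_, hmT, q, hE⟩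
    · exact ⟨_, hmT, p, hE.symmF⟩
  have hsub : star F v = T := by
    ext m
    rw [mem_star']
    constructor
    · rintro ⟨hm, h4⟩
      obtain ⟨w₁, w₂, g₁, g₂, hF⟩ := hA5 V F h v hv m hm h4
      exact cB w₁ (hall w₁ hF.e₁.adjV) m hm h4 hF.e₁.wf
    · intro hm
      rw [hTm] at hm
      rcases hm with rfl | rfl | rfl
      · exact ⟨hf, h1⟩
      · exact ⟨hg, h2⟩
      · exact ⟨hk, h3⟩
  rw [hsub, hT]
  exact Finset.card_eq_three.2 ⟨f, g, k, hfg', hfk', hgk', rfl⟩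

theorem pf_E1 (hA3 : Stm_A3) (hA4 : Stm_A4) (hA5 : Stm_A5) (hA7 : Stm_A7) (hC2 : Stm_C2) (hC3 : Stm_C3)
    (hC4 : Stm_C4) (hC5 : Stm_C5) : Stm_E1 := by
  classical
  intro V F hM
  have hD : DP V F := hM.toDP
  refine
    { x0 := fun v hv => hx_pos (hM.one_lt_V v hv)
      x1 := fun v hv => hx_lt_one (hM.one_lt_V v hv)
      z0 := fun f hf => hx_pos (hM.one_lt_F f hf)
      z1 := fun f hf => hx_lt_one (hM.one_lt_F f hf)
      face := ?_
      vert := ?_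
      tot := ?_
      deg := ?_
      common := ?_
      two := ?_
      conn := ?_
      link := ?_
      cap := fun f hf g hg k hk h1 h2 h3 => hC5 V F hM f hf g hg k hk h1 h2 h3 }
  · intro f hf
    rw [vof_eq_star]
    exact hC2 V F hM f hf
  · intro v hv
    rw [fat_eq_star]
    exact hC3 V F hM v hv
  · rw [← hC4 V F hM]
    refine Finset.sum_comm' ?_
    intro v f
    rw [mem_fat_E3, mem_star]
    tauto
  · intro v hv
    rw [fat_eq_star]
    exact hA4 V F hD v hv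
  · intro f hf g hg hfg
    by_contra hcon
    rw [not_le] at hcon
    obtain ⟨a, b, c, ha, hb, hc, hab, hac, hbc⟩ := Finset.two_lt_card_iff.1 hcon
    simp only [Finset.mem_filter] at ha hb hc
    exact hA3 V F hD f hf g hg hfg a ha.1 b hb.1 c hc.1 hab hbc hac ha.2.1 ha.2.2 hb.2.1 hb.2.2 hc.2.1
      hc.2.2
  · intro v hv f hf h1
    obtain ⟨w₁, w₂, g₁, g₂, hF⟩ := hA5 V F hD v hv f hf h1
    refine ⟨g₁, g₂, hF.hg, fun g => ?_⟩
    rw [← hF.adj_iff hA3 hD g]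
    constructor
    · rintro ⟨hg, hA, h2⟩
      exact ⟨(adjI_iff hf hg).1 hA, h2⟩
    · rintro ⟨hA, h2⟩
      exact ⟨hA.2.1, (adjI_iff hf hA.2.1).2 hA, h2⟩
  · rintro f hf S ⟨g, hg, hA, hgS⟩ ⟨g', hg', hA', hgS'⟩
    obtain ⟨v, hv, h1, k, k', hk, hk', h2, h3, h4, h5⟩ := hA7 V F hD f hf S
      ⟨g, (adjI_iff hf hg).1 hA, hgS⟩ ⟨g', (adjI_iff hf hg').1 hA', hgS'⟩
    exact ⟨v, hv, h1, k, hk.2.1, k', hk'.2.1, (adjI_iff hf hk.2.1).2 hk, (adjI_iff hf hk'.2.1).2 hk',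
      h2, h3, h4, h5⟩
  · intro v hv f hf g hg k hk h1 h2 h3 hfg hgk hfk
    rw [fat_eq_star]
    exact link_E3 hA3 hA5 hA7 hD hv hf hg hk h1 h2 h3 ((adjI_iff hf hg).1 hfg) ((adjI_iff hg hk).1 hgk)
      ((adjI_iff hf hk).1 hfk)

theorem pf_E2 : Stm_E2 := by
  intro V F hM
  unfold Len
  refine Finset.sum_congr rfl fun v hv => ?_
  rw [fat_eq_star, tl_eq_hx (hM.one_lt_V v hv)]
  rfl

end Pool.Agent.Lib.MP_af06f6_co
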