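import Mathlib
import Pool.Agent.Lib.MP_af06f6_co.D.Stm

/-!
# MP_af06f6_co, discharging part: T1, T2, T3 (trivial cases)
-/

open Set

namespace Pool.Agent.Lib.MP_af06f6_co

private lemma t_tt_nonneg {x : ℝ} (h0 : 0 < x) (h1 : x < 1) : 0 ≤ tt x := by
  have : 0 < 1 - x ^ 2 := by nlinarith
  unfold tt
  positivity

private lemma t_tt_ge {x : ℝ} (h0 : 0 < x) (h1 : x < 1) : 2 * x ≤ tt x := by
  have : 0 < 1 - x ^ 2 := by nlinarith
  unfold tt
  rw [le_div_iff₀ this]
  nlinarith [mul_pos h0 (mul_pos h0 h0)]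

private lemma t_tt_mono {x X : ℝ} (hX : 0 < X) (hx : X ≤ x) (h1 : x < 1) : tt X ≤ tt x := by
  have h2 : 0 < 1 - x ^ 2 := by nlinarith
  have h3 : 1 - x ^ 2 ≤ 1 - X ^ 2 := by nlinarith
  unfold tt
  exact div_le_div₀ (by linarith) (by linarith) h2 h3

private lemma t_om_le {x z : ℝ} (hx : 0 < x) (hz : 0 < z) : om x z ≤ x * z := by
  unfold om
  have h0 : 0 ≤ Real.arctan (x * z) := Real.arctan_nonneg.2 (by positivity)
  have h1 := Real.le_tan h0 (Real.arctan_lt_pi_div_two _)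
  rwa [Real.tan_arctan] at h1

private lemma t_om_nonneg {x z : ℝ} (hx : 0 < x) (hz : 0 < z) : 0 ≤ om x z :=
  Real.arctan_nonneg.2 (by positivity)

private lemma t_ph {x z : ℝ} (hx : 0 < x) (hz : 0 < z) (hz1 : z < 1) : 2 * om x z ≤ ph x z := by
  have h1 : th x z = Real.pi / 2 - Real.arctan (x / z) := by
    have := Real.arctan_inv_of_pos (x := x / z) (by positivity)
    rw [inv_div] at this
    exact this
  have h2 : om x z ≤ Real.arctan (x / z) := by
    unfold om
    refine Real.arctan_le_arctan_iff.2 ?_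
    rw [le_div_iff₀ hz]
    nlinarith [mul_pos hx hz]
  unfold ph
  rw [h1]
  linarith

private lemma t_len {α β : Type} (V : Finset α) (F : Finset β) (I : α → β → Prop) (x : α → ℝ) :
    Len V F I x = ∑ v ∈ V, ∑ _f ∈ fat F I v, tt (x v) := by
  unfold Len
  refine Finset.sum_congr rfl fun v _ => ?_
  rw [Finset.sum_const, nsmul_eq_mul]

open Classical in
private lemma t_mem {α β : Type} {F : Finset β} {I : α → β → Prop} {v : α} {f : β} (h : f ∈ fat F I v) :
    f ∈ F ∧ I v f := Finset.mem_filter.1 h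

theorem pf_T1 : Stm_T1 := by
  rintro α β V F I x z hC ⟨v, hv, hxv⟩
  have h1 : ((fat F I v).card : ℝ) * tt (x v) ≤ Len V F I x := by
    unfold Len
    refine Finset.single_le_sum (f := fun v => ((fat F I v).card : ℝ) * tt (x v)) (fun w hw => ?_) hv
    exact mul_nonneg (Nat.cast_nonneg _) (t_tt_nonneg (hC.x0 w hw) (hC.x1 w hw))
  have h2 : (3 : ℝ) ≤ ((fat F I v).card : ℝ) := by exact_mod_cast hC.deg v hv
  have h3 : tt ((13435 : ℝ) / 16384) ≤ tt (x v) := t_tt_mono (by norm_num) hxv (hC.x1 v hv)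
  have h4 : (14.966 : ℝ) ≤ 3 * tt ((13435 : ℝ) / 16384) := by
    unfold tt
    norm_num
  have h5 : 0 ≤ tt (x v) := t_tt_nonneg (hC.x0 v hv) (hC.x1 v hv)
  nlinarith

theorem pf_T2 : Stm_T2 := by
  intro α β V F I x z hC hz
  have h1 : (2 * 16384 / 6800 : ℝ) * Real.pi ≤ Len V F I x := by
    rw [t_len, ← hC.tot, Finset.mul_sum]
    refine Finset.sum_le_sum fun v hv => ?_
    rw [Finset.mul_sum]
    refine Finset.sum_le_sum fun f hf => ?_
    have hfF : f ∈ F := (t_mem hf).1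
    have a1 := t_om_le (hC.x0 v hv) (hC.z0 f hfF)
    have a2 := t_tt_ge (hC.x0 v hv) (hC.x1 v hv)
    have a3 : x v * z f ≤ x v * ((6800 : ℝ) / 16384) := mul_le_mul_of_nonneg_left (hz f hfF) (hC.x0 v hv).le
    linarith
  have h2 := Real.pi_gt_d4
  norm_num at h1 h2 ⊢
  linarith

open Classical in
theorem pf_T3 : Stm_T3 := by
  intro α β V F I x z hC f₀ hf₀ hz
  have hfl : ∑ v ∈ V, ∑ f ∈ fat F I v, (if f = f₀ then om (x v) (z f) else 0) = ∑ v ∈ vof V I f₀, om (x v) (z f₀) := by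
    rw [vof, Finset.sum_filter]
    refine Finset.sum_congr rfl fun v _ => ?_
    by_cases hI : I v f₀
    · rw [if_pos hI, Finset.sum_eq_single f₀]
      · rw [if_pos rfl]
      · intro f _ hne
        rw [if_neg hne]
      · intro hn
        exact absurd (Finset.mem_filter.2 ⟨hf₀, hI⟩) hn
    · rw [if_neg hI]
      refine Finset.sum_eq_zero fun f hf => ?_
      rw [if_neg]
      rintro rfl
      exact hI (Finset.mem_filter.1 hf).2
  have hhalf : 2 * ∑ v ∈ vof V I f₀, om (x v) (z f₀) ≤ Real.pi := by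
    rw [← hC.face f₀ hf₀, Finset.mul_sum]
    refine Finset.sum_le_sum fun v hv => ?_
    exact t_ph (hC.x0 v (Finset.mem_filter.1 hv).1) (hC.z0 f₀ hf₀) (hC.z1 f₀ hf₀)
  have h1 : (2 * 16384 / 3438 : ℝ) * (Real.pi - ∑ v ∈ vof V I f₀, om (x v) (z f₀)) ≤ Len V F I x := by
    rw [t_len, ← hfl, ← hC.tot, ← Finset.sum_sub_distrib, Finset.mul_sum]
    refine Finset.sum_le_sum fun v hv => ?_
    rw [← Finset.sum_sub_distrib, Finset.mul_sum]
    refine Finset.sum_le_sum fun f hf => ?_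
    have hfF : f ∈ F := (t_mem hf).1
    have a2 := t_tt_ge (hC.x0 v hv) (hC.x1 v hv)
    have a0 := hC.x0 v hv
    by_cases hff : f = f₀
    · rw [if_pos hff]
      have : om (x v) (z f) - om (x v) (z f) = 0 := sub_self _
      rw [this]
      linarith
    · rw [if_neg hff, sub_zero]
      have a1 := t_om_le (hC.x0 v hv) (hC.z0 f hfF)
      have a3 : x v * z f ≤ x v * ((3438 : ℝ) / 16384) := mul_le_mul_of_nonneg_left (hz f hfF hff) (hC.x0 v hv).le
      linarith
  have h2 := Real.pi_gt_d4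
  norm_num at h1 h2 ⊢
  linarith

end Pool.Agent.Lib.MP_af06f6_co
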